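import Pool.Agent.H12.TG.Main
import Pool.Agent.H84.PG.Defs
import Pool.Agent.H36.PP.ThmB

/-!
# Reduction to residually finite just-non-AP groups, for finite unions of double cosets

`MinHyp`   the two facts on minimal counterexamples which are used: the dichotomy and Lemma F
`red_main` the theorem for locally graded groups, under `MinHyp`
`vind_main` the theorem for virtually indicable groups, under `MinHyp`
-/

set_option autoImplicit false

universe u

namespace H12.TG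

open Subgroup H36.PP H36.PQ H84.PG

/-- the dichotomy and the finite generation of kernels, for minimal counterexamples -/
def MinHyp : Prop :=
  ∀ (X : Type u) [Group X] (A B : Subgroup X), MinD X A B → ∀ (N : Subgroup X) [N.Normal],
    (¬ AP N → AP (X ⧸ N) ∧ ht (X ⧸ N) ≤ ht A) ∧ (AP (X ⧸ N) → N.FG)

theorem exists_fab' {G : Type u} [Group G] (hG : ¬ AP G) (c : ℕ)
    (hb : ∀ (N : Subgroup G) [N.Normal], ¬ AP N → ht (G ⧸ N) ≤ c)
    (hfgN : ∀ (N : Subgroup G) [N.Normal], AP (G ⧸ N) → N.FG) :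
    ∃ (N : Subgroup G) (_ : N.Normal), Infinite N ∧ N.FG ∧ AP (G ⧸ N) ∧ NoVZ N := by
  classical
  -- all normal subgroups with almost polycyclic quotient
  have hnap : ∀ (N : Subgroup G) (_ : N.Normal), AP (G ⧸ N) → ¬ AP N := by
    intro N _ hq hN
    exact hG (AP.ext N hN hq)
  let T : Set ℕ := {n | ∃ (N : Subgroup G) (_ : N.Normal), AP (G ⧸ N) ∧ ht (G ⧸ N) = n}
  have hT1 : T.Nonempty := by
    refine ⟨ht (G ⧸ (⊤ : Subgroup G)), ⊤, inferInstance, ?_, rfl⟩
    have : Finite (G ⧸ (⊤ : Subgroup G)) := by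
      have : Subsingleton (G ⧸ (⊤ : Subgroup G)) := QuotientGroup.subsingleton_quotient_top
      infer_instance
    exact AP.of_finite
  have hT2 : BddAbove T := by
    refine ⟨c, ?_⟩
    rintro n ⟨N, hN, hq, rfl⟩
    exact hb N (hnap N hN hq)
  obtain ⟨N, hN, hq, hNm⟩ := Nat.sSup_mem hT1 hT2
  have hmax : ∀ (D : Subgroup G) (_ : D.Normal), AP (G ⧸ D) → ht (G ⧸ D) ≤ ht (G ⧸ N) := by
    intro D hD hDq
    rw [hNm]
    exact le_csSup hT2 ⟨D, hD, hDq, rfl⟩
  have hNfg : N.FG := hfgN N hq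
  have hNi : Infinite N := by
    by_contra hc
    rw [not_infinite_iff_finite] at hc
    exact hnap N hN hq AP.of_finite
  refine ⟨N, hN, hNi, hNfg, hq, ?_⟩
  intro K hK f
  by_contra hf
  obtain ⟨k, hk⟩ : ∃ k, f k ≠ 1 := by
    by_contra hc
    push Not at hc
    exact hf (MonoidHom.ext hc)
  -- the subgroup `S` of `G`
  let S : Subgroup G := K.map N.subtype
  have hSN : S ≤ N := map_subtype_le K
  have hSi : S.relIndex N ≠ 0 := by
    have h1 : S.subgroupOf N = K := by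
      ext x
      constructor
      · rintro ⟨y, hy, hyx⟩
        have : y = x := Subtype.ext hyx
        rwa [← this]
      · intro hx
        exact ⟨x, hx, rfl⟩
    rw [relIndex, h1]
    exact hK.index_ne_zero
  obtain ⟨T', hTn, hTS, hTi⟩ := exists_normal_core N hNfg S hSN hSi
  have hTN : T' ≤ N := hTS.trans hSN
  let e : K ≃* S := K.equivMapOfInjective N.subtype N.subtype_injective
  let F : T' →* Multiplicative ℤ :=
    f.comp (e.symm.toMonoidHom.comp (Subgroup.inclusion hTS))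
  have hpow : ∀ (z : Multiplicative ℤ) (n : ℕ), 0 < n → z ^ n = 1 → z = 1 := by
    intro z n hn hz
    have h1 : (n : ℤ) * Multiplicative.toAdd z = 0 := by
      have := congrArg Multiplicative.toAdd hz
      rwa [toAdd_pow, toAdd_one, nsmul_eq_mul] at this
    rcases mul_eq_zero.1 h1 with h2 | h2
    · exact absurd (by exact_mod_cast h2) hn.ne'
    · exact h2
  obtain ⟨t, ht⟩ : ∃ t : T', F t ≠ 1 := by
    have hkN : ((e k : S) : G) ∈ N := hSN (e k).2
    obtain ⟨n, hn, -, hm⟩ := exists_pow_mem_of_relIndex_ne_zero hTi hkN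
    refine ⟨⟨((e k : S) : G) ^ n, hm.1⟩, ?_⟩
    intro hc
    have h1 : Subgroup.inclusion hTS ⟨((e k : S) : G) ^ n, hm.1⟩ = (e k) ^ n :=
      Subtype.ext rfl
    have h2 : F ⟨((e k : S) : G) ^ n, hm.1⟩ = f k ^ n := by
      change f (e.symm (Subgroup.inclusion hTS ⟨((e k : S) : G) ^ n, hm.1⟩)) = f k ^ n
      rw [h1, map_pow, MulEquiv.symm_apply_apply, map_pow]
    rw [h2] at hc
    exact hk (hpow _ n hn hc)
  -- the intersection of the kernels
  let D0 : Subgroup T' := ⨅ g : T' →* Multiplicative ℤ, g.ker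
  have hD0 : ∀ x : T', x ∈ D0 ↔ ∀ g : T' →* Multiplicative ℤ, g x = 1 := by
    intro x
    simp only [D0, mem_iInf, MonoidHom.mem_ker]
  have hchar : D0.Characteristic := by
    rw [characteristic_iff_le_comap]
    intro φ x hx
    rw [mem_comap, hD0]
    intro g
    exact (hD0 x).1 hx (g.comp φ.toMonoidHom)
  let D : Subgroup G := D0.map T'.subtype
  have hDn : D.Normal := ConjAct.normal_of_characteristic_of_normal
  have hDT : D ≤ T' := map_subtype_le D0
  have hDN : D ≤ N := hDT.trans hTN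
  have hmemD : ∀ x : T', (x : G) ∈ D ↔ x ∈ D0 := by
    intro x
    constructor
    · rintro ⟨y, hy, hyx⟩
      have : y = x := Subtype.ext hyx
      rwa [← this]
    · intro hx
      exact ⟨x, hx, rfl⟩
  have hTfg : T'.FG := by
    have h1 : Group.FG N := (Group.fg_iff_subgroup_fg N).2 hNfg
    have h2 : (T'.subgroupOf N).FiniteIndex := ⟨hTi⟩
    have h3 : Group.FG (T'.subgroupOf N) := Subgroup.fg_of_index_ne_zero (T'.subgroupOf N)
    have h4 : (T'.subgroupOf N).FG := (Group.fg_iff_subgroup_fg _).1 h3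
    have h5 := fg_map h4 N.subtype
    rwa [subgroupOf_map_subtype, inf_eq_left.2 hTN] at h5
  have hA1 : AP (T'.map (QuotientGroup.mk' D) : Subgroup (G ⧸ D)) := by
    refine AP.of_comm_fg ?_ ((Group.fg_iff_subgroup_fg _).2 (fg_map hTfg _))
    rintro ⟨_, x, hx, rfl⟩ ⟨_, y, hy, rfl⟩
    apply Subtype.ext
    change (QuotientGroup.mk (x * y) : G ⧸ D) = QuotientGroup.mk (y * x)
    rw [QuotientGroup.eq]
    have : (x * y)⁻¹ * (y * x) =
        (((⟨x, hx⟩ * ⟨y, hy⟩)⁻¹ * (⟨y, hy⟩ * ⟨x, hx⟩) : T') : G) := rfl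
    rw [this, hmemD, hD0]
    intro g
    rw [map_mul, map_inv, map_mul, map_mul, mul_comm (g ⟨y, hy⟩), inv_mul_cancel]
  have hA2 : AP (N.map (QuotientGroup.mk' D) : Subgroup (G ⧸ D)) := by
    refine AP.of_finiteIndex ((T'.map (QuotientGroup.mk' D)).subgroupOf
      (N.map (QuotientGroup.mk' D))) ⟨?_⟩ (AP_subgroupOf hA1)
    change (T'.map (QuotientGroup.mk' D)).relIndex (N.map (QuotientGroup.mk' D)) ≠ 0
    rw [relIndex_map_map, QuotientGroup.ker_mk', sup_eq_left.2 hDT, sup_eq_left.2 hDN]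
    exact hTi
  have hA3 : AP (G ⧸ D) := AP.quotient_of_le D N hDN hA2 hq
  have hle : D ≤ N.comap (MonoidHom.id G) := hDN
  have hlt : H36.PP.ht (G ⧸ N) < H36.PP.ht (G ⧸ D) := by
    refine ht_lt_of_surjective hA3 (QuotientGroup.map D N (MonoidHom.id G) hle) ?_ ?_
    · intro x
      induction x using QuotientGroup.induction_on with
      | H x => exact ⟨QuotientGroup.mk x, rfl⟩
    · by_contra hc
      rw [not_infinite_iff_finite] at hc
      have h1 : (QuotientGroup.mk (t : G) : G ⧸ D) ∈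
          (QuotientGroup.map D N (MonoidHom.id G) hle).ker := by
        rw [MonoidHom.mem_ker]
        change (QuotientGroup.mk (t : G) : G ⧸ N) = 1
        rw [QuotientGroup.eq_one_iff]
        exact hTN t.2
      obtain ⟨n, hn, h2⟩ := (isOfFinOrder_iff_pow_eq_one.1
        (isOfFinOrder_of_finite (⟨_, h1⟩ : (QuotientGroup.map D N (MonoidHom.id G) hle).ker)))
      have h3 : (QuotientGroup.mk ((t : G) ^ n) : G ⧸ D) = 1 := congrArg Subtype.val h2
      rw [QuotientGroup.eq_one_iff] at h3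
      have h4 : t ^ n ∈ D0 := (hmemD (t ^ n)).1 h3
      have h5 := (hD0 _).1 h4 F
      rw [map_pow] at h5
      exact ht (hpow _ n hn h5)
  exact absurd (hmax D hDn hA3) (not_le.2 hlt)

/-- transport of a cover to the subgroup -/
theorem dc_sub {G : Type*} [Group G] {X A B : Subgroup G} (h : DC X A B) :
    DC (⊤ : Subgroup X) (A.subgroupOf X) (B.subgroupOf X) := by
  obtain ⟨hA, hB, F, hF, hFX, hcov⟩ := h
  refine ⟨le_top, le_top, (fun x : X => (x : G)) ⁻¹' F,
    hF.preimage (Subtype.val_injective.injOn), fun _ _ => mem_top _, ?_⟩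
  intro x _
  obtain ⟨a, ha, f, hf, b, hb, hx⟩ := hcov x x.2
  exact ⟨⟨a, hA ha⟩, mem_subgroupOf.2 ha, ⟨f, hFX hf⟩, hf, ⟨b, hB hb⟩, mem_subgroupOf.2 hb,
    Subtype.ext hx⟩

theorem dc_map {G H : Type*} [Group G] [Group H] {X A B : Subgroup G} (h : DC X A B)
    (f : G →* H) : DC (X.map f) (A.map f) (B.map f) := by
  obtain ⟨hA, hB, F, hF, hFX, hcov⟩ := h
  refine ⟨map_mono hA, map_mono hB, f '' F, hF.image f, ?_, ?_⟩
  · rintro _ ⟨x, hx, rfl⟩
    exact mem_map_of_mem f (hFX hx)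
  · rintro _ ⟨x, hx, rfl⟩
    obtain ⟨a, ha, g, hg, b, hb, rfl⟩ := hcov x hx
    exact ⟨f a, mem_map_of_mem f ha, f g, ⟨g, hg, rfl⟩, f b, mem_map_of_mem f hb, by
      rw [map_mul, map_mul]⟩

/-- the class of locally graded counterexamples -/
def ClsD (n : ℕ) (X : Type u) [Group X] (A B : Subgroup X) : Prop :=
  DC ⊤ A B ∧ AP A ∧ AP B ∧ LG X ∧ TF.ASec n X ∧ ¬ AP X

/-- a minimal member of the class is a minimal counterexample -/
theorem clsD_min {n : ℕ} {X : Type u} [Group X] {A B : Subgroup X} (h : ClsD n X A B)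
    (hmin : ∀ (Y : Type u) (_ : Group Y) (A' B' : Subgroup Y), ClsD n Y A' B' →
      ht A + ht B ≤ ht A' + ht B') : MinD X A B := by
  obtain ⟨hf, hA, hB, hLG, hS, hG⟩ := h
  refine ⟨hf, hA, hB, hG, ?_⟩
  intro X' A' B' hf' hA₀ hB₀ hlt
  have hA' : AP A' := hA₀.ap hA
  have hB' : AP B' := hB₀.ap hB
  by_contra hX'
  have hAX := hf'.1
  have hBX := hf'.2.1
  have hcls : ClsD n X' (A'.subgroupOf X') (B'.subgroupOf X') := by
    refine ⟨dc_sub hf', (AP.congr (subgroupOfEquivOfLe hAX)).mpr hA',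
      (AP.congr (subgroupOfEquivOfLe hBX)).mpr hB', hLG.subgroup X', ?_, hX'⟩
    exact hS.section' X' (MonoidHom.id X') Function.surjective_id
  have := hmin X' inferInstance _ _ hcls
  rw [ht_congr (Subgroup.subgroupOfEquivOfLe hAX), ht_congr (Subgroup.subgroupOfEquivOfLe hBX)]
    at this
  omega

/-- the join of all normal almost polycyclic subgroups of a minimal counterexample is almost
polycyclic -/
theorem joinD {X : Type u} [Group X]
    (hd : ∀ (N : Subgroup X) [N.Normal], ¬ AP N → AP (X ⧸ N))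
    (hfg : ∀ (N : Subgroup X) [N.Normal], AP (X ⧸ N) → N.FG) :
    ∃ M : Subgroup X, M.Normal ∧ AP M ∧ ∀ N : Subgroup X, N.Normal → AP N → N ≤ M := by
  let K : Set (Subgroup X) := {N | N.Normal ∧ AP N}
  have hbot : (⊥ : Subgroup X) ∈ K := by
    refine ⟨inferInstance, ?_⟩
    have : Finite (⊥ : Subgroup X) := inferInstance
    exact AP.of_finite
  have hdir : DirectedOn (· ≤ ·) K := by
    rintro N ⟨hN, hN'⟩ L ⟨hL, hL'⟩
    exact ⟨N ⊔ L, ⟨inferInstance, AP.sup N L hN' hL'⟩, le_sup_left, le_sup_right⟩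
  have hmem : ∀ x, x ∈ sSup K ↔ ∃ s ∈ K, x ∈ s := fun x => mem_sSup_of_directedOn ⟨⊥, hbot⟩ hdir
  have hnorm : (sSup K).Normal := by
    refine ⟨fun x hx g => ?_⟩
    obtain ⟨s, hs, hxs⟩ := (hmem x).mp hx
    exact (hmem _).mpr ⟨s, hs, hs.1.conj_mem x hxs g⟩
  refine ⟨sSup K, hnorm, ?_, fun N hN hN' => le_sSup ⟨hN, hN'⟩⟩
  by_contra hM
  have hq := hd (sSup K) hM
  obtain ⟨S, hS⟩ := hfg (sSup K) hq
  -- a finite set of generators lies in one member
  have hfin : ∀ S : Finset X, (∀ x ∈ S, x ∈ sSup K) → ∃ s ∈ K, ∀ x ∈ S, x ∈ s := by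
    classical
    intro S
    induction S using Finset.induction_on with
    | empty => exact fun _ => ⟨⊥, hbot, fun x hx => absurd hx (Finset.notMem_empty x)⟩
    | insert a S _ ih =>
      intro hS
      obtain ⟨s, hs, hs'⟩ := ih fun x hx => hS x (Finset.mem_insert_of_mem hx)
      obtain ⟨t, ht, hat⟩ := (hmem a).mp (hS a (Finset.mem_insert_self a S))
      obtain ⟨w, hw, hsw, htw⟩ := hdir s hs t ht
      refine ⟨w, hw, fun x hx => ?_⟩
      rcases Finset.mem_insert.mp hx with rfl | hx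
      · exact htw hat
      · exact hsw (hs' x hx)
  obtain ⟨s, hs, hs'⟩ := hfin S fun x hx => by
    rw [← hS]
    exact subset_closure hx
  have hle : sSup K ≤ s := by
    rw [← hS, closure_le]
    exact fun x hx => hs' x hx
  exact hM (hs.2.mono hle)

/-- the reduction -/
theorem redD (H : MinHyp.{u}) (n : ℕ) {G : Type u} [Group G] (A B : Subgroup G)
    (hcls : ClsD n G A B) :
    ∃ (X : Type u) (_ : Group X) (A' B' : Subgroup X), DC ⊤ A' B' ∧ AP A' ∧ AP B' ∧ RF X ∧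
      TF.ASec n X ∧ Group.FG X ∧
      (∀ (N : Subgroup X) [N.Normal], N ≠ ⊥ → N.FG ∧ AP (X ⧸ N)) ∧
      ∃ (N : Subgroup X) (_ : N.Normal), Infinite N ∧ N.FG ∧ AP (X ⧸ N) ∧ NoVZ N := by
  classical
  -- a minimal member of the class
  let P : ℕ → Prop := fun k => ∃ (X : Type u) (_ : Group X) (A B : Subgroup X),
    ClsD n X A B ∧ ht A + ht B = k
  have hex : ∃ k, P k := ⟨_, G, inferInstance, A, B, hcls, rfl⟩
  obtain ⟨Y, hY, A₁, B₁, hcls, hsum⟩ := Nat.find_spec hex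
  have hmin : ∀ (Z : Type u) (_ : Group Z) (A' B' : Subgroup Z), ClsD n Z A' B' →
      ht A₁ + ht B₁ ≤ ht A' + ht B' := by
    intro Z hZ A' B' h
    rw [hsum]
    exact Nat.find_min' hex ⟨Z, hZ, A', B', h, rfl⟩
  have hmce := clsD_min hcls hmin
  obtain ⟨M, hMn, hMap, hMmax⟩ := joinD (fun N _ hN => ((H Y A₁ B₁ hmce N).1 hN).1)
    (fun N _ hN => (H Y A₁ B₁ hmce N).2 hN)
  obtain ⟨hf₁, hA₁, hB₁, hLG₁, hS₁, hG₁⟩ := hcls
  -- the quotient
  let π : Y →* Y ⧸ M := QuotientGroup.mk' M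
  have hπ : Function.Surjective π := QuotientGroup.mk'_surjective M
  have hLGq : LG (Y ⧸ M) := hLG₁.quotient M hMap
  have hGq : ¬ AP (Y ⧸ M) := fun h => hG₁ (AP.ext M hMap h)
  have hclsq : ClsD n (Y ⧸ M) (A₁.map π) (B₁.map π) := by
    refine ⟨?_, ?_, ?_, hLGq, ?_, hGq⟩
    · have h1 := dc_map hf₁ π
      rwa [Subgroup.map_top_of_surjective _ hπ] at h1
    · exact AP.of_surjective (π.subgroupMap A₁) (π.subgroupMap_surjective A₁) hA₁
    · exact AP.of_surjective (π.subgroupMap B₁) (π.subgroupMap_surjective B₁) hB₁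
    · refine hS₁.section' ⊤ (π.comp (⊤ : Subgroup Y).subtype) ?_
      intro y
      obtain ⟨x, rfl⟩ := hπ y
      exact ⟨⟨x, mem_top x⟩, rfl⟩
  have hle1 : ht (A₁.map π : Subgroup (Y ⧸ M)) ≤ ht A₁ :=
    ht_le_of_surjective hA₁ (π.subgroupMap A₁) (π.subgroupMap_surjective A₁)
  have hle2 : ht (B₁.map π : Subgroup (Y ⧸ M)) ≤ ht B₁ :=
    ht_le_of_surjective hB₁ (π.subgroupMap B₁) (π.subgroupMap_surjective B₁)
  have hmceq : MinD (Y ⧸ M) (A₁.map π) (B₁.map π) :=
    clsD_min hclsq fun Z hZ A' B' h => (add_le_add hle1 hle2).trans (hmin Z hZ A' B' h)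
  -- normal subgroups
  have hNorm : ∀ (N : Subgroup (Y ⧸ M)) [N.Normal], N ≠ ⊥ → N.FG ∧ AP ((Y ⧸ M) ⧸ N) := by
    intro N hN hne
    have hnap : ¬ AP N := by
      intro hNap
      have h1 : AP (N.comap π : Subgroup Y) := ThmB_comap M hMap N hNap
      have h2 : N.comap π ≤ M := hMmax _ inferInstance h1
      apply hne
      rw [eq_bot_iff]
      intro x hx
      obtain ⟨g, rfl⟩ := hπ x
      have h3 : g ∈ M := h2 hx
      rw [mem_bot]
      exact (QuotientGroup.eq_one_iff g).mpr h3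
    have h4 := ((H _ _ _ hmceq N).1 hnap).1
    exact ⟨(H _ _ _ hmceq N).2 h4, h4⟩
  have hfg : Group.FG (Y ⧸ M) := by
    have h1 : AP ((Y ⧸ M) ⧸ (⊤ : Subgroup (Y ⧸ M))) := by
      have : Subsingleton ((Y ⧸ M) ⧸ (⊤ : Subgroup (Y ⧸ M))) :=
        QuotientGroup.subsingleton_quotient_top
      exact AP.of_finite
    exact Group.fg_def.2 ((H _ _ _ hmceq ⊤).2 h1)
  obtain ⟨hf₂, hA₂, hB₂, -, hS₂, hG₂⟩ := hclsq
  exact ⟨Y ⧸ M, inferInstance, A₁.map π, B₁.map π, hf₂, hA₂, hB₂,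
    ThmB_rf hLGq hNorm, hS₂, hfg, hNorm, exists_fab' hG₂ (ht (A₁.map π : Subgroup (Y ⧸ M)))
      (fun N _ hN => ((H _ _ _ hmceq N).1 hN).2) (fun N _ hN => (H _ _ _ hmceq N).2 hN)⟩

/-- Theorem 2 -/
theorem red_main (H : MinHyp.{u}) {G : Type u} [Group G] (hLG : LG G) (A B : Subgroup G)
    (hA : AP A) (hB : AP B) (hdc : DC ⊤ A B) (n : ℕ) (hS : TF.ASec n G) : AP G := by
  classical
  by_contra hG
  obtain ⟨X, _, A', B', hdc', hA', hB', hrf, hS', hfg, hN, N₀, hN₀, hinf, hNfg, -, hno⟩ :=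
    redD H n A B ⟨hdc, hA, hB, hLG, hS, hG⟩
  obtain ⟨-, -, F, hF, -, hcov⟩ := hdc'
  refine x_main A' B' hA' hB' hF.toFinset ?_ hfg hrf (fun N _ h => (hN N h).2) N₀ hinf hNfg hno
    n hS'
  intro g
  obtain ⟨a, ha, f, hf, b, hb, hg⟩ := hcov g (mem_top g)
  exact ⟨a, ha, f, hF.mem_toFinset.2 hf, b, hb, hg⟩

/-- a minimal counterexample inside a given group -/
theorem exists_minD {G : Type u} [Group G] (A B : Subgroup G) (hf : DC ⊤ A B) (hA : AP A)
    (hB : AP B) (hG : ¬ AP G) :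
    ∃ X A' B' : Subgroup G, MinD X (A'.subgroupOf X) (B'.subgroupOf X) := by
  classical
  let P : ℕ → Prop := fun n => ∃ X A' B' : Subgroup G, DC X A' B' ∧ AP A' ∧ AP B' ∧
    ¬ AP X ∧ ht A' + ht B' = n
  have hP : ∃ n, P n := by
    refine ⟨ht A + ht B, ⊤, A, B, hf, hA, hB, ?_, rfl⟩
    intro h
    exact hG ((AP.congr Subgroup.topEquiv).1 h)
  obtain ⟨X, A', B', hX, hA', hB', hXn, hXm⟩ := Nat.find_spec hP
  refine ⟨X, A', B', dc_sub hX, AP_subgroupOf hA', AP_subgroupOf hB', hXn, ?_⟩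
  intro Y A'' B'' hY hA₀ hB₀ hlt
  have hA'' : AP A'' := hA₀.ap (AP_subgroupOf hA')
  have hB'' : AP B'' := hB₀.ap (AP_subgroupOf hB')
  rw [ht_subgroupOf hX.1, ht_subgroupOf hX.2.1, hXm] at hlt
  by_contra hYn
  refine Nat.find_min hP hlt ?_
  refine ⟨Y.map X.subtype, A''.map X.subtype, B''.map X.subtype, dc_map hY _, ?_, ?_, ?_, ?_⟩
  · exact (AP.congr (A''.equivMapOfInjective X.subtype X.subtype_injective)).1 hA''
  · exact (AP.congr (B''.equivMapOfInjective X.subtype X.subtype_injective)).1 hB''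
  · intro h
    exact hYn ((AP.congr (Y.equivMapOfInjective X.subtype X.subtype_injective)).2 h)
  · rw [ht_map_subtype, ht_map_subtype]

/-- Theorem 1 -/
theorem vind_main (H : MinHyp.{u}) {G : Type u} [Group G] (hv : VInd G) (A B : Subgroup G)
    (hA : AP A) (hB : AP B) (hdc : DC ⊤ A B) : AP G := by
  by_contra hG
  obtain ⟨X, A', B', hX⟩ := exists_minD A B hdc hA hB hG
  obtain ⟨N, hN, hNi, hNfg, -, hNf⟩ := exists_fab' hX.nap (ht (A'.subgroupOf X))
    (fun N _ hN => ((H X _ _ hX N).1 hN).2) (fun N _ hN => (H X _ _ hX N).2 hN)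
  obtain ⟨K, hK, f, hf⟩ := hv.subgroup X N hNfg hNi
  exact hf (hNf K hK f)

/-- a product is a union of double cosets -/
theorem dc_of_fact {G : Type*} [Group G] {A B : Subgroup G} (h : Fact A B) : DC ⊤ A B := by
  refine ⟨le_top, le_top, {1}, Set.finite_singleton 1, fun _ _ => mem_top _, ?_⟩
  intro x _
  obtain ⟨a, ha, b, hb, rfl⟩ := h x
  exact ⟨a, ha, 1, rfl, b, hb, by rw [mul_one]⟩

end H12.TG
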