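import Pool.Agent.H12.TG.NilRel
import Pool.Agent.H12.TF.Sec
import Pool.Agent.H12.TF.Cover

/-!
# Residually finite just-non-AP groups of bounded rank inside `U`

`x5_main`: `X` finitely generated, residually finite, all proper quotients almost polycyclic, `N₀`
an infinite finitely generated normal subgroup without virtual maps onto `ℤ`, `SecU X U R`, `X₁ ≤ U`
normal of finite index with soluble images in all finite quotients. Contradiction.
`x_main`: the same for a finite union of double cosets of almost polycyclic subgroups and `ASec n X`.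
-/

set_option autoImplicit false

universe u

namespace H12.TG

open Subgroup H36.PP H36.PQ
open scoped commutatorElement

theorem DS_subgroupOf {X : Type u} [Group X] (X₁ K : Subgroup X) (hK : K ≤ X₁) (n : ℕ) :
    (DS (K.subgroupOf X₁) n).map X₁.subtype = DS K n := by
  rw [z1_DS_map, subgroupOf_map_subtype, inf_eq_left.2 hK]

theorem x5_main {X : Type u} [Group X] (hfg : Group.FG X) (hrf : RF X)
    (hq : ∀ (N : Subgroup X) [N.Normal], N ≠ ⊥ → AP (X ⧸ N)) (N₀ : Subgroup X) [N₀.Normal]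
    (hinf : Infinite N₀) (hN : N₀.FG) (hno : NoVZ N₀) {U X₁ : Subgroup X} {R : ℕ}
    (hR : SecU X U R) (hX₁ : X₁.Normal) (hX₁f : X₁.FiniteIndex) (hX₁U : X₁ ≤ U)
    (hsol : ∀ (J : Subgroup X) [J.Normal], J.FiniteIndex →
      Group.IsSolvable (X₁.map (QuotientGroup.mk' J))) : False := by
  obtain ⟨t, hz⟩ := zassenhaus.{u} R
  -- replace `N₀` by `N₁ = N₀ ⊓ X₁`
  let N₁ : Subgroup X := N₀ ⊓ X₁
  have hN₁n : N₁.Normal := inferInstance
  have hN₁0 : N₁ ≤ N₀ := inf_le_left
  have hN₁X : N₁ ≤ X₁ := inf_le_right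
  have hfi : N₁.relIndex N₀ ≠ 0 := by
    have h1 : (N₁.subgroupOf N₀).FiniteIndex := by
      have h2 : N₁.subgroupOf N₀ = X₁.subgroupOf N₀ := inf_subgroupOf_left _ _
      rw [h2]
      infer_instance
    exact h1.index_ne_zero
  have hinf₁ : Infinite N₁ := by
    by_contra hf
    rw [not_infinite_iff_finite] at hf
    have hf' : Finite (N₁.subgroupOf N₀) :=
      Finite.of_injective (fun x => (⟨x.1.1, x.2⟩ : N₁)) (by
        intro x y hxy
        apply Subtype.ext
        apply Subtype.ext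
        exact congrArg (fun z : N₁ => (z : X)) hxy)
    have : Finite N₀ := by
      have h0 : (N₁.subgroupOf N₀).FiniteIndex := ⟨hfi⟩
      have h1 : Finite (N₀ ⧸ N₁.subgroupOf N₀) := inferInstance
      exact Finite.of_equiv _ (Subgroup.groupEquivQuotientProdSubgroup
        (s := N₁.subgroupOf N₀)).symm
    exact not_finite N₀
  have hN₁fg : N₁.FG := by
    have h0 : (N₁.subgroupOf N₀).FiniteIndex := ⟨hfi⟩
    have h1 : Group.FG N₀ := (Group.fg_iff_subgroup_fg N₀).2 hN
    have h2 : Group.FG (N₁.subgroupOf N₀) := fg_of_index_ne_zero _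
    have h3 : Group.FG N₁ := Group.fg_of_surjective (f := (subgroupOfEquivOfLe hN₁0).toMonoidHom)
      (subgroupOfEquivOfLe hN₁0).surjective
    exact (Group.fg_iff_subgroup_fg N₁).1 h3
  have hno₁ : NoVZ N₁ := a1_sub hN₁0 hfi hno
  -- the subgroup K
  let K : Subgroup X := DS N₁ t
  have hKn : K.Normal := z1_DS_normal N₁ t
  have hKN : K ≤ N₁ := z1_DS_anti N₁ (Nat.zero_le t)
  have hKX : K ≤ X₁ := hKN.trans hN₁X
  obtain ⟨hKfg, hKfi, e, he, hKe⟩ := a1_fab N₁ hN₁fg hno₁ t
  have hKno : NoVZ K := a1_sub hKN hKfi hno₁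
  have hinfd : ∀ n, Infinite (DS N₁ n) := by
    intro n
    obtain ⟨-, h, -⟩ := a1_fab N₁ hN₁fg hno₁ n
    have h' : ((DS N₁ n).subgroupOf N₁).FiniteIndex := ⟨h⟩
    by_contra hf
    rw [not_infinite_iff_finite] at hf
    have hf' : Finite ((DS N₁ n).subgroupOf N₁) :=
      Finite.of_injective (fun x => (⟨x.1.1, x.2⟩ : DS N₁ n)) (by
        intro x y hxy
        apply Subtype.ext
        apply Subtype.ext
        exact congrArg (fun z : DS N₁ n => (z : X)) hxy)
    have : Finite N₁ := by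
      have h1 : Finite (N₁ ⧸ (DS N₁ n).subgroupOf N₁) := inferInstance
      exact Finite.of_equiv _ (Subgroup.groupEquivQuotientProdSubgroup
        (s := (DS N₁ n).subgroupOf N₁)).symm
    exact not_finite N₁
  have hnil : ∀ (J : Subgroup X) [J.Normal], J.FiniteIndex →
      Group.IsNilpotent (K.map (QuotientGroup.mk' J)) := fun J _ hJ =>
    fin_nil_rel hz hR hX₁ hX₁U hN₁X hsol hX₁f J hJ
  obtain ⟨p, hp, hres⟩ := a2_res hrf K (hinfd t) hKno hq hnil he hKe
  have hfact : _root_.Fact p.Prime := ⟨hp⟩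
  obtain ⟨hfg2, -, e₂, he₂, hKe₂⟩ := a1_fab N₁ hN₁fg hno₁ (t + t)
  have hadd : DS K t = DS N₁ (t + t) := (z1_DS_add N₁ t t).symm
  have hadd' : DS K (t + 1) = DS N₁ (t + t + 1) := by
    change DS (DS N₁ t) (t + 1) = _
    rw [← z1_DS_add, add_assoc]
  -- the group `X₁`
  have hX₁fg : Group.FG X₁ := fg_of_index_ne_zero X₁
  have hX₁sol : FinSol X₁ := by
    intro J' hJ'n hJ'
    let J : Subgroup X := (J'.map X₁.subtype).normalCore
    have hJf : J.FiniteIndex := by
      have h1 : (J'.map X₁.subtype).FiniteIndex := ⟨by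
        rw [← relIndex_top_right, ← relIndex_mul_relIndex _ _ _ (map_subtype_le J')
          (le_top : X₁ ≤ ⊤)]
        refine mul_ne_zero ?_ (by rw [relIndex_top_right]; exact hX₁f.index_ne_zero)
        rw [relIndex, subgroupOf, comap_map_eq_self_of_injective X₁.subtype_injective]
        exact hJ'.index_ne_zero⟩
      exact inferInstance
    have hJJ : J.subgroupOf X₁ ≤ J' := by
      intro x hx
      obtain ⟨y, hy, hyx⟩ := normalCore_le _ (mem_subgroupOf.1 hx)
      rwa [Subtype.ext hyx] at hy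
    have h2 := hsol J hJf
    let r : X₁ →* X₁.map (QuotientGroup.mk' J) := (QuotientGroup.mk' J).subgroupMap X₁
    have hr : Function.Surjective r := (QuotientGroup.mk' J).subgroupMap_surjective X₁
    have hker : r.ker ≤ J' := by
      intro x hx
      apply hJJ
      rw [mem_subgroupOf]
      have h3 := congrArg Subtype.val (MonoidHom.mem_ker.1 hx)
      exact (QuotientGroup.eq_one_iff (x : X)).1 h3
    have h4 : Group.IsSolvable (X₁ ⧸ r.ker) :=
      Group.isSolvable_of_isSolvable_injective (f := (QuotientGroup.quotientKerEquivOfSurjective r hr).toMonoidHom)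
        (QuotientGroup.quotientKerEquivOfSurjective r hr).injective
    refine Group.isSolvable_of_surjective
      (f := QuotientGroup.map r.ker J' (MonoidHom.id X₁) hker) ?_
    intro y
    obtain ⟨x, rfl⟩ := QuotientGroup.mk_surjective y
    exact ⟨(x : X₁ ⧸ r.ker), rfl⟩
  have hsub : ∀ (n : ℕ) (x : X₁), x ∈ DS (K.subgroupOf X₁) n ↔ (x : X) ∈ DS K n := by
    intro n x
    rw [← DS_subgroupOf X₁ K hKX n]
    constructor
    · intro h
      exact mem_map_of_mem X₁.subtype h
    · rintro ⟨y, hy, hyx⟩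
      rwa [Subtype.ext hyx] at hy
  have hfgK : (DS (K.subgroupOf X₁) t).FG := by
    have h1 : (DS K t).FG := by rw [hadd]; exact hfg2
    have h2 : Group.FG (DS K t) := (Group.fg_iff_subgroup_fg _).2 h1
    have h3 : DS K t ≤ X₁ := (z1_DS_anti K (Nat.zero_le t)).trans hKX
    have h4 : DS (K.subgroupOf X₁) t = (DS K t).subgroupOf X₁ := by
      ext x
      rw [hsub, mem_subgroupOf]
    rw [h4]
    have h5 : Group.FG ((DS K t).subgroupOf X₁) :=
      Group.fg_of_surjective (f := (subgroupOfEquivOfLe h3).symm.toMonoidHom)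
        (subgroupOfEquivOfLe h3).symm.surjective
    exact (Group.fg_iff_subgroup_fg _).1 h5
  refine f2_final hX₁fg hX₁sol hz hp (K.subgroupOf X₁) hfgK he₂ ?_ ?_
  · intro k hk
    rw [hsub] at hk ⊢
    have h1 : ((k ^ e₂ : X₁) : X) = (k : X) ^ e₂ := rfl
    rw [h1]
    rw [hadd] at hk
    rw [hadd']
    exact hKe₂ _ hk
  intro n
  -- a deep element
  have hne : ∃ x ∈ DS K (n + t + R + 2), x ≠ 1 := by
    by_contra hcon
    push Not at hcon
    have hinf2 := hinfd (t + (n + t + R + 2))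
    rw [z1_DS_add] at hinf2
    have : Subsingleton (DS K (n + t + R + 2)) := ⟨fun x y => Subtype.ext (by
      rw [hcon x.1 x.2, hcon y.1 y.2])⟩
    have hf : Finite (DS (DS N₁ t) (n + t + R + 2)) := @Finite.of_subsingleton _ this
    exact not_finite (DS (DS N₁ t) (n + t + R + 2))
  obtain ⟨x, hx, hx1⟩ := hne
  obtain ⟨L, hLn, hLK, hLfi, hLp, hxL⟩ := hres x (z1_DS_anti K (Nat.zero_le _) hx) hx1
  let π : X →* X ⧸ L := QuotientGroup.mk' L
  let P : Subgroup (X ⧸ L) := K.map π
  have hPn : P.Normal := hKn.map π (QuotientGroup.mk'_surjective L)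
  have hPfin : Finite P := by
    have h1 : (L.subgroupOf K).FiniteIndex := ⟨hLfi⟩
    have h2 : Finite (K ⧸ L.subgroupOf K) := inferInstance
    let f : K →* P := π.subgroupMap K
    have hf : Function.Surjective f := π.subgroupMap_surjective K
    have hker : L.subgroupOf K ≤ f.ker := by
      intro y hy
      rw [MonoidHom.mem_ker]
      apply Subtype.ext
      exact (QuotientGroup.eq_one_iff (y : X)).2 hy
    have := QuotientGroup.lift_surjective_of_surjective (L.subgroupOf K) f hf hker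
    exact Finite.of_surjective _ this
  have hPp : IsPGroup p P := by
    rintro ⟨y, k, hk, rfl⟩
    obtain ⟨m, hm⟩ := hLp k hk
    refine ⟨m, ?_⟩
    apply Subtype.ext
    change π k ^ p ^ m = 1
    rw [← map_pow]
    exact (QuotientGroup.eq_one_iff _).2 hm
  have hneP : DS P (n + t + R + 2) ≠ ⊥ := by
    intro h
    have h1 : π x ∈ DS P (n + t + R + 2) := by
      rw [← z1_DS_map]
      exact mem_map_of_mem π hx
    rw [h, mem_bot] at h1
    exact hxL ((QuotientGroup.eq_one_iff x).1 h1)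
  obtain ⟨s, hs, d, φ, g, hg, hφg⟩ :=
    rep_rel (secU_quotient hR L ((hLK.trans hKX).trans hX₁U)) hz hp P
      (map_mono (hKX.trans hX₁U)) hPfin hPp (n := n + t) (by omega) hneP
  rw [← z1_DS_map] at hg
  obtain ⟨g', hg', rfl⟩ := hg
  have hg'K : g' ∈ DS K n := z1_DS_anti K (by omega) hg'
  have hg'X : g' ∈ X₁ := hKX (z1_DS_anti K (Nat.zero_le n) hg'K)
  exact ⟨s, hs, d, (φ.comp π).comp X₁.subtype, ⟨g', hg'X⟩, (hsub n _).2 hg'K, hφg⟩

theorem ap_cj {X : Type u} [Group X] {B : Subgroup X} (hB : AP B) (f : X) : AP (cj f B) :=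
  AP.of_surjective ((MulAut.conj f).toMonoidHom.subgroupMap B)
    ((MulAut.conj f).toMonoidHom.subgroupMap_surjective B) hB

/-- the final step, for finite unions of double cosets -/
theorem x_main {X : Type u} [Group X] (A B : Subgroup X) (hA : AP A) (hB : AP B) (F : Finset X)
    (hF : ∀ g : X, ∃ a ∈ A, ∃ f ∈ F, ∃ b ∈ B, g = a * f * b) (hfg : Group.FG X) (hrf : RF X)
    (hq : ∀ (N : Subgroup X) [N.Normal], N ≠ ⊥ → AP (X ⧸ N)) (N₀ : Subgroup X) [N₀.Normal]
    (hinf : Infinite N₀) (hN : N₀.FG) (hno : NoVZ N₀) (n : ℕ) (hsec : TF.ASec n X) : False := by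
  obtain ⟨f, -, U, hU, hUf, hcov⟩ := x3_cover F hF
  have hB' : AP (cj f B) := ap_cj hB f
  have hrfL : ∀ (L : Subgroup X) [L.Normal], RF (X ⧸ L) := by
    intro L hL
    by_cases hLb : L = ⊥
    · subst hLb
      intro g hg
      obtain ⟨x, rfl⟩ := QuotientGroup.mk_surjective g
      have hx : x ≠ 1 := by
        rintro rfl
        exact hg rfl
      obtain ⟨N, hNn, hNf, hxN⟩ := hrf x hx
      refine ⟨N.map (QuotientGroup.mk' ⊥), hNn.map _ (QuotientGroup.mk'_surjective _), ?_, ?_⟩
      · refine ⟨?_⟩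
        have h1 : (N.map (QuotientGroup.mk' (⊥ : Subgroup X))).comap (QuotientGroup.mk' ⊥) = N := by
          rw [comap_map_eq, QuotientGroup.ker_mk', sup_bot_eq]
        rw [← index_comap_of_surjective _ (QuotientGroup.mk'_surjective (⊥ : Subgroup X)), h1]
        exact hNf.index_ne_zero
      · rintro ⟨y, hy, hyx⟩
        apply hxN
        have h1 : y⁻¹ * x ∈ (⊥ : Subgroup X) := QuotientGroup.eq.1 hyx
        rw [mem_bot, inv_mul_eq_one] at h1
        rwa [← h1]
    · exact (hq L hLb).rf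
  obtain ⟨R, hR⟩ := secU_of_cov A (cj f B) U hA hB' hrfL hcov
  obtain ⟨a, ha⟩ := hA.frk
  obtain ⟨b, hb⟩ := hB'.frk
  have hsyl := TF.syl_of_cover U A (cj f B) hU ha hb hcov
  obtain ⟨X₁, hX₁, hX₁f, hX₁U, hsol⟩ := TF.tf_sol hU hUf hsyl n hsec
  exact x5_main hfg hrf hq N₀ hinf hN hno hR hX₁ hX₁f hX₁U hsol

end H12.TG
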