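import Pool.Agent.H84.PG.Defs
import Pool.Agent.H36.PP.ThmA

/-!
# Part I: unions of double cosets and minimal counterexamples

I.1 `dc_mid`, I.2 `dc_fi`, I.3 `dc_symm`, `dc_conj`, `dc_map`, I.4 `dichD`, I.5 `MinD.restrict`,
I.6 `MinD.fgG`, I.7 `MinD.ht_quot_le`, I.8 `normD`.
-/

set_option autoImplicit false

universe u

namespace H12.TG

open Subgroup H36.PP H84.PG

variable {G : Type u} [Group G]

/-- I.1 -/
theorem dc_mid {X A B Y : Subgroup G} (h : DC X A B) (hAY : A ≤ Y) (hYX : Y ≤ X) :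
    DC Y A (B ⊓ Y) := by
  classical
  obtain ⟨hA, hB, F, hF, hFX, hcov⟩ := h
  refine ⟨hAY, inf_le_right, ?_⟩
  choose! c hc using fun f : G => fun (hf : ∃ b ∈ B, f * b ∈ Y) => hf
  refine ⟨(fun f => f * c f) '' {f ∈ F | ∃ b ∈ B, f * b ∈ Y}, ?_, ?_, ?_⟩
  · exact (hF.subset fun f hf => hf.1).image _
  · rintro _ ⟨f, ⟨-, hf⟩, rfl⟩
    exact (hc f hf).2
  · intro y hy
    obtain ⟨a, ha, f, hf, b, hb, rfl⟩ := hcov y (hYX hy)
    have h1 : f * b ∈ Y := by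
      have h2 := mul_mem (inv_mem (hAY ha)) hy
      rwa [mul_assoc, inv_mul_cancel_left] at h2
    have hex : ∃ b ∈ B, f * b ∈ Y := ⟨b, hb, h1⟩
    refine ⟨a, ha, f * c f, ⟨f, ⟨hf, hex⟩, rfl⟩, (c f)⁻¹ * b,
      mem_inf.2 ⟨mul_mem (inv_mem (hc f hex).1) hb, ?_⟩, by group⟩
    have h3 : (c f)⁻¹ * b = (f * c f)⁻¹ * (f * b) := by group
    rw [h3]
    exact mul_mem (inv_mem (hc f hex).2) h1

/-- I.3 -/
theorem dc_symm {X A B : Subgroup G} (h : DC X A B) : DC X B A := by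
  obtain ⟨hA, hB, F, hF, hFX, hcov⟩ := h
  refine ⟨hB, hA, F⁻¹, hF.inv, ?_, ?_⟩
  · intro x hx
    have := hFX (Set.mem_inv.1 hx)
    exact inv_mem_iff.1 this
  · intro x hx
    obtain ⟨a, ha, f, hf, b, hb, hxe⟩ := hcov x⁻¹ (inv_mem hx)
    refine ⟨b⁻¹, inv_mem hb, f⁻¹, Set.inv_mem_inv.2 hf, a⁻¹, inv_mem ha, ?_⟩
    rw [← inv_inv x, hxe]
    group

/-- the conjugate -/
def cjj (g : G) (B : Subgroup G) : Subgroup G := B.map (MulAut.conj g).toMonoidHom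

theorem mem_cjj {g : G} {B : Subgroup G} {y : G} : y ∈ cjj g B ↔ ∃ b ∈ B, g * b * g⁻¹ = y :=
  Iff.rfl

theorem cjj_equiv (g : G) (B : Subgroup G) : Nonempty (B ≃* cjj g B) :=
  ⟨B.equivMapOfInjective _ (MulAut.conj g).injective⟩

theorem ap_cjj {g : G} {B : Subgroup G} (h : AP B) : AP (cjj g B) := by
  obtain ⟨e⟩ := cjj_equiv g B
  exact (AP.congr e).1 h

theorem ht_cjj (g : G) (B : Subgroup G) : ht (cjj g B) = ht B := by
  obtain ⟨e⟩ := cjj_equiv g B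
  exact (ht_congr e).symm

theorem dc_conj {X A B : Subgroup G} (h : DC X A B) {g : G} (hg : g ∈ X) : DC X A (cjj g B) := by
  obtain ⟨hA, hB, F, hF, hFX, hcov⟩ := h
  refine ⟨hA, ?_, (fun f => f * g⁻¹) '' F, hF.image _, ?_, ?_⟩
  · rintro _ ⟨b, hb, rfl⟩
    exact mul_mem (mul_mem hg (hB hb)) (inv_mem hg)
  · rintro _ ⟨f, hf, rfl⟩
    exact mul_mem (hFX hf) (inv_mem hg)
  · intro x hx
    obtain ⟨a, ha, f, hf, b, hb, hxe⟩ := hcov (x * g) (mul_mem hx hg)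
    refine ⟨a, ha, f * g⁻¹, ⟨f, hf, rfl⟩, g * b * g⁻¹, mem_cjj.2 ⟨b, hb, rfl⟩, ?_⟩
    have h1 : x = a * f * b * g⁻¹ := by rw [← hxe, mul_inv_cancel_right]
    rw [h1]
    group

/-- finitely many right cosets -/
theorem fi_of_cover {H : Subgroup G} {C : Set G} (hC : C.Finite)
    (h : ∀ g : G, ∃ c ∈ C, g * c⁻¹ ∈ H) : H.FiniteIndex := by
  have : Finite C := hC
  have hs : Function.Surjective (fun c : C => (QuotientGroup.mk ((c : G)⁻¹) : G ⧸ H)) := by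
    intro x
    obtain ⟨g, rfl⟩ := QuotientGroup.mk_surjective x
    obtain ⟨c, hc, hgc⟩ := h g⁻¹
    refine ⟨⟨c, hc⟩, ?_⟩
    show (QuotientGroup.mk (c⁻¹ : G) : G ⧸ H) = QuotientGroup.mk g
    rw [QuotientGroup.eq, inv_inv]
    have h1 := inv_mem hgc
    rw [mul_inv_rev, inv_inv, inv_inv] at h1
    exact h1
  have hfin : Finite (G ⧸ H) := Finite.of_surjective _ hs
  exact ⟨Nat.card_pos.ne'⟩

/-- a finite transversal: `A = ⋃ A₁ s` -/
theorem exists_trans {A A₁ : Subgroup G} (h : A₁.relIndex A ≠ 0) :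
    ∃ S : Set G, S.Finite ∧ S ⊆ (A : Set G) ∧ ∀ a ∈ A, ∃ s ∈ S, a * s⁻¹ ∈ A₁ := by
  classical
  have hfi : (A₁.subgroupOf A).FiniteIndex := ⟨h⟩
  have hf : Finite (A ⧸ A₁.subgroupOf A) := inferInstance
  refine ⟨Set.range (fun q : A ⧸ A₁.subgroupOf A => ((Quotient.out q : A) : G)⁻¹),
    Set.finite_range _, ?_, ?_⟩
  · rintro _ ⟨q, rfl⟩
    exact inv_mem (Quotient.out q : A).2
  · intro a ha
    refine ⟨_, ⟨QuotientGroup.mk (⟨a⁻¹, inv_mem ha⟩ : A), rfl⟩, ?_⟩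
    rw [inv_inv]
    have h1 := QuotientGroup.eq.mp (QuotientGroup.out_eq'
      (QuotientGroup.mk (⟨a⁻¹, inv_mem ha⟩ : A) : A ⧸ A₁.subgroupOf A)).symm
    rw [mem_subgroupOf] at h1
    push_cast at h1
    rw [inv_inv] at h1
    exact h1

/-- I.2 -/
theorem dc_fi {X A B Y : Subgroup G} (h : DC X A B) (hYX : Y ≤ X) (hY : Y.relIndex X ≠ 0) :
    DC Y (A ⊓ Y) (B ⊓ Y) := by
  classical
  obtain ⟨hA, hB, F, hF, hFX, hcov⟩ := h
  have hrel : ∀ C : Subgroup G, C ≤ X → (C ⊓ Y).relIndex C ≠ 0 := by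
    intro C hC
    rw [inf_relIndex_left]
    intro h0
    exact hY (relIndex_eq_zero_of_le_right hC h0)
  obtain ⟨S, hS, hSA, hScov⟩ := exists_trans (hrel A hA)
  obtain ⟨T, hT, hTB, hTcov⟩ := exists_trans (hrel B hB)
  refine ⟨inf_le_right, inf_le_right, {y | y ∈ Y ∧ ∃ s ∈ S, ∃ f ∈ F, ∃ t ∈ T, y = s * f * t⁻¹},
    ?_, fun y hy => hy.1, ?_⟩
  · refine ((hS.prod (hF.prod hT)).image (fun z => z.1 * z.2.1 * z.2.2⁻¹)).subset ?_
    rintro y ⟨-, s, hs, f, hf, t, ht, rfl⟩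
    exact ⟨(s, f, t), ⟨hs, hf, ht⟩, rfl⟩
  · intro y hy
    obtain ⟨a, ha, f, hf, b, hb, rfl⟩ := hcov y (hYX hy)
    obtain ⟨s, hs, has⟩ := hScov a ha
    obtain ⟨t, ht, hbt⟩ := hTcov b⁻¹ (inv_mem hb)
    have h1 : (b⁻¹ * t⁻¹)⁻¹ ∈ B ⊓ Y := inv_mem hbt
    have h2 : s * f * t⁻¹ = (a * s⁻¹)⁻¹ * (a * f * b) * ((b⁻¹ * t⁻¹)⁻¹)⁻¹ := by group
    refine ⟨a * s⁻¹, has, s * f * t⁻¹, ⟨?_, s, hs, f, hf, t, ht, rfl⟩, (b⁻¹ * t⁻¹)⁻¹, h1, by group⟩
    rw [h2]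
    exact mul_mem (mul_mem (inv_mem (mem_inf.1 has).2) hy) (inv_mem (mem_inf.1 h1).2)

/-- symmetry -/
theorem minD_symm {A B : Subgroup G} (h : MinD G A B) : MinD G B A :=
  ⟨dc_symm h.dc, h.apB, h.apA, h.nap, fun X A' B' hd hA' hB' hlt =>
    h.min X B' A' (dc_symm hd) hB' hA' (by omega)⟩

theorem minD_conj {A B : Subgroup G} (h : MinD G A B) (g : G) : MinD G A (cjj g B) :=
  ⟨dc_conj h.dc (mem_top g), h.apA, ap_cjj h.apB, h.nap, fun X A' B' hd hA' hB' hlt =>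
    h.min X A' B' hd hA' (hB'.trans (Emb.map _ (MulAut.conj g).injective B))
      (by rwa [ht_cjj] at hlt)⟩

theorem dich_aux {A B : Subgroup G} (h : MinD G A B) (M : Subgroup G) (hM : ¬ AP M)
    (Y : Subgroup G) (hAY : A ≤ Y) (hMY : M ≤ Y) : (B ⊓ Y).relIndex B ≠ 0 := by
  intro h0
  have h1 := ht_lt h.apB (inf_le_left : B ⊓ Y ≤ B) h0
  have h2 := h.min Y A (B ⊓ Y) (dc_mid h.dc hAY le_top) Emb.refl (Emb.of_le inf_le_left) (by omega)
  exact hM (h2.mono hMY)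

/-- I.4, first part -/
theorem sup_fi {A B : Subgroup G} (h : MinD G A B) (M : Subgroup G) [M.Normal] (hM : ¬ AP M) :
    (A ⊔ M).FiniteIndex := by
  classical
  obtain ⟨-, -, F, hF, -, hcov⟩ := h.dc
  have h1 : ∀ f : G, ∃ S : Set G, S.Finite ∧ ∀ b ∈ cjj f B, ∃ s ∈ S, b * s⁻¹ ∈ A ⊔ M := by
    intro f
    have h2 := dich_aux (minD_conj h f) M hM (A ⊔ M) le_sup_left le_sup_right
    obtain ⟨S, hS, -, hSc⟩ := exists_trans h2
    refine ⟨S, hS, fun b hb => ?_⟩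
    obtain ⟨s, hs, hbs⟩ := hSc b hb
    exact ⟨s, hs, (mem_inf.1 hbs).2⟩
  choose S hS hSc using h1
  refine fi_of_cover (C := ⋃ f ∈ F, (fun s => s * f) '' S f) (hF.biUnion fun f _ =>
    (hS f).image _) ?_
  intro g
  obtain ⟨a, ha, f, hf, b, hb, rfl⟩ := hcov g (mem_top g)
  obtain ⟨s, hs, hbs⟩ := hSc f (f * b * f⁻¹) (mem_cjj.2 ⟨b, hb, rfl⟩)
  refine ⟨s * f, Set.mem_iUnion₂.2 ⟨f, hf, s, hs, rfl⟩, ?_⟩
  have h3 : a * f * b * (s * f)⁻¹ = a * (f * b * f⁻¹ * s⁻¹) := by group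
  rw [h3]
  exact mul_mem (mem_sup_left ha) hbs

/-- I.4 and I.7 -/
theorem dichD {A B : Subgroup G} (h : MinD G A B) (M : Subgroup G) [M.Normal] (hM : ¬ AP M) :
    AP (G ⧸ M) ∧ ht (G ⧸ M) ≤ ht A := by
  have h1 := sup_fi h M hM
  have hmap : (A ⊔ M).map (QuotientGroup.mk' M) = A.map (QuotientGroup.mk' M) := by
    rw [Subgroup.map_sup]
    simp [QuotientGroup.map_mk'_self]
  have hap : AP (A.map (QuotientGroup.mk' M)) :=
    AP.of_surjective ((QuotientGroup.mk' M).subgroupMap A)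
      (MonoidHom.subgroupMap_surjective _ _) h.apA
  have hfi : (A.map (QuotientGroup.mk' M)).FiniteIndex := by
    rw [← hmap]
    constructor
    have h3 := Subgroup.index_map_dvd (f := QuotientGroup.mk' M) (A ⊔ M)
      (QuotientGroup.mk'_surjective M)
    intro h0
    rw [h0, zero_dvd_iff] at h3
    exact h1.index_ne_zero h3
  have hq : AP (G ⧸ M) := AP.of_finiteIndex _ hfi hap
  refine ⟨hq, ?_⟩
  rw [← ht_eq_of_finiteIndex hq _ hfi]
  exact ht_le_of_surjective h.apA ((QuotientGroup.mk' M).subgroupMap A)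
    (MonoidHom.subgroupMap_surjective _ _)

/-- I.5 -/
theorem minD_restrict {A B : Subgroup G} (h : MinD G A B) (Y : Subgroup G) (hY : Y.FiniteIndex) :
    MinD Y (A.subgroupOf Y) (B.subgroupOf Y) := by
  have hdc : DC Y (A ⊓ Y) (B ⊓ Y) := dc_fi h.dc le_top (by
    rw [relIndex_top_right]; exact hY.index_ne_zero)
  have eA : (A ⊓ Y).subgroupOf Y = A.subgroupOf Y := inf_subgroupOf_right A Y
  have eB : (B ⊓ Y).subgroupOf Y = B.subgroupOf Y := inf_subgroupOf_right B Y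
  have hA' : ht (A.subgroupOf Y) ≤ ht A := by
    rw [← eA, ht_subgroupOf inf_le_right]
    exact ht_mono h.apA inf_le_left
  have hB' : ht (B.subgroupOf Y) ≤ ht B := by
    rw [← eB, ht_subgroupOf inf_le_right]
    exact ht_mono h.apB inf_le_left
  refine ⟨?_, AP_subgroupOf h.apA, AP_subgroupOf h.apB,
    fun hap => h.nap (AP.of_finiteIndex Y hY hap), ?_⟩
  · obtain ⟨hA, hB, F, hF, hFX, hcov⟩ := hdc
    refine ⟨le_top, le_top, (fun x : Y => (x : G)) ⁻¹' F,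
      hF.preimage (Subtype.val_injective.injOn), fun _ _ => mem_top _, ?_⟩
    intro x _
    obtain ⟨a, ha, f, hf, b, hb, hx⟩ := hcov x x.2
    exact ⟨⟨a, hA ha⟩, mem_subgroupOf.2 (mem_inf.1 ha).1, ⟨f, hFX hf⟩, hf, ⟨b, hB hb⟩,
      mem_subgroupOf.2 (mem_inf.1 hb).1, Subtype.ext hx⟩
  · intro X₁ A₁ B₁ hd hA₁ hB₁ hlt
    have inj : Function.Injective Y.subtype := Y.subtype_injective
    have hd' : DC (X₁.map Y.subtype) (A₁.map Y.subtype) (B₁.map Y.subtype) := by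
      obtain ⟨hA, hB, F, hF, hFX, hcov⟩ := hd
      refine ⟨map_mono hA, map_mono hB, Y.subtype '' F, hF.image _, ?_, ?_⟩
      · rintro _ ⟨x, hx, rfl⟩
        exact mem_map_of_mem _ (hFX hx)
      · rintro _ ⟨x, hx, rfl⟩
        obtain ⟨a, ha, g, hg, b, hb, rfl⟩ := hcov x hx
        exact ⟨Y.subtype a, mem_map_of_mem _ ha, Y.subtype g, ⟨g, hg, rfl⟩, Y.subtype b,
          mem_map_of_mem _ hb, by rw [map_mul, map_mul]⟩
    have h5 := h.min _ _ _ hd' (((Emb.map _ inj A₁).trans hA₁).trans (Emb.subgroupOf A Y))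
      (((Emb.map _ inj B₁).trans hB₁).trans (Emb.subgroupOf B Y)) (by
        rw [ht_map_subtype, ht_map_subtype]; omega)
    exact (AP.congr (X₁.equivMapOfInjective _ inj)).mpr h5

/-- I.6 -/
theorem minD_fg {A B : Subgroup G} (h : MinD G A B) : Group.FG G := by
  classical
  obtain ⟨-, -, F, hF, -, hcov⟩ := h.dc
  obtain ⟨S, hS⟩ := h.apA.1 ⊤
  obtain ⟨T, hT⟩ := h.apB.1 ⊤
  have hSA : closure ((S.image A.subtype : Finset G) : Set G) = A := by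
    rw [Finset.coe_image, ← MonoidHom.map_closure, hS, ← MonoidHom.range_eq_map,
      Subgroup.range_subtype]
  have hTB : closure ((T.image B.subtype : Finset G) : Set G) = B := by
    rw [Finset.coe_image, ← MonoidHom.map_closure, hT, ← MonoidHom.range_eq_map,
      Subgroup.range_subtype]
  refine Group.fg_def.2 ⟨S.image A.subtype ∪ T.image B.subtype ∪ hF.toFinset, ?_⟩
  rw [eq_top_iff]
  intro x _
  obtain ⟨a, ha, f, hf, b, hb, rfl⟩ := hcov x (mem_top x)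
  refine mul_mem (mul_mem ?_ ?_) ?_
  · rw [← hSA] at ha
    refine closure_mono ?_ ha
    rw [Finset.coe_union, Finset.coe_union]
    exact Set.subset_union_left.trans Set.subset_union_left
  · refine subset_closure ?_
    rw [Finset.coe_union]
    exact Or.inr (by rw [Set.Finite.coe_toFinset]; exact hf)
  · rw [← hTB] at hb
    refine closure_mono ?_ hb
    rw [Finset.coe_union, Finset.coe_union]
    exact Set.subset_union_right.trans Set.subset_union_left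

/-- I.8 -/
theorem normD {A B : Subgroup G} (h : MinD G A B) (M : Subgroup G) [hMn : M.Normal]
    (hM : ¬ AP M) : ∃ G₁ : Subgroup G, G₁.Normal ∧ G₁.FiniteIndex ∧ M ≤ G₁ ∧
      ∀ G' : Subgroup G, M ≤ G' → G' ≤ G₁ → (A ⊓ G') ⊔ M = G' ∧ (B ⊓ G') ⊔ M = G' := by
  have h1 := sup_fi h M hM
  have h2 := sup_fi (minD_symm h) M hM
  have hle : ((A ⊔ M) ⊓ (B ⊔ M)).normalCore ≤ (A ⊔ M) ⊓ (B ⊔ M) := normalCore_le _
  have key : ∀ (C G' : Subgroup G), M ≤ G' → G' ≤ C ⊔ M → (C ⊓ G') ⊔ M = G' := by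
    intro C G' hMG hG
    refine le_antisymm (sup_le inf_le_right hMG) ?_
    intro g hg
    obtain ⟨c, hc, m, hm, rfl⟩ := mem_sup_of_normal_right.1 (hG hg)
    refine mul_mem (mem_sup_left (mem_inf.2 ⟨hc, ?_⟩)) (mem_sup_right hm)
    have h3 := mul_mem hg (inv_mem (hMG hm))
    rwa [mul_inv_cancel_right] at h3
  refine ⟨((A ⊔ M) ⊓ (B ⊔ M)).normalCore, inferInstance, inferInstance, ?_, ?_⟩
  · exact normal_le_normalCore.2 (le_inf le_sup_right le_sup_right)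
  · intro G' hMG hG'
    exact ⟨key A G' hMG (hG'.trans (hle.trans inf_le_left)),
      key B G' hMG (hG'.trans (hle.trans inf_le_right))⟩

end H12.TG
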