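import Pool.Agent.H12.TG.Compact
import Pool.Agent.H12.TF.Factor
import Pool.Agent.H36.PQ.R3
import Pool.Agent.H36.PP.RFin

/-!
# The rank bound relative to a normal subgroup

`bg_ap`: an almost polycyclic group: all subgroups are products of `h` cyclic groups.
`SecU X U R`: finite normal elementary abelian sections of `X` inside `U` have rank at most `R`.
`secU_of_cov`: `U ≤ A B J` for all `J`, `A`, `B` almost polycyclic: `SecU X U R` for some `R`.
-/

set_option autoImplicit false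

universe u

namespace H12.TG

open Subgroup H36.PP H36.PQ
open scoped commutatorElement Pointwise

theorem sb_finite {Q : Type*} [Group Q] [Finite Q] (K : Subgroup Q) : R3_SB K (Nat.card Q) := by
  classical
  have : Fintype Q := Fintype.ofFinite Q
  set S : Finset Q := (K : Set Q).toFinset with hS
  have hc : S.card ≤ Nat.card Q := by
    rw [Nat.card_eq_fintype_card]
    exact Finset.card_le_univ S
  refine ⟨S.toList ++ List.replicate (Nat.card Q - S.card) 1, ?_, ?_, ?_⟩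
  · rw [List.length_append, Finset.length_toList, List.length_replicate]
    omega
  · intro a ha
    rcases List.mem_append.mp ha with h1 | h1
    · have h2 := Finset.mem_toList.mp h1
      rw [hS, Set.mem_toFinset] at h2
      exact h2
    · rw [List.eq_of_mem_replicate h1]
      exact one_mem K
  · intro x hx
    apply R3_PS_entry
    refine List.mem_append_left _ (Finset.mem_toList.mpr ?_)
    rw [hS, Set.mem_toFinset]
    exact hx

theorem bg_ap {A : Type u} [Group A] (hA : AP A) : ∃ h, ∀ K : Subgroup A, R3_SB K h := by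
  obtain ⟨S, hS, hsol⟩ := hA.2
  have hNS : S.normalCore ≤ S := normalCore_le S
  have hNsol : Group.IsSolvable S.normalCore :=
    Group.isSolvable_of_isSolvable_injective (f := Subgroup.inclusion hNS) (Subgroup.inclusion_injective hNS)
  obtain ⟨n, hn⟩ := hNsol.solvable
  obtain ⟨h, hh⟩ := R3_solv n S.normalCore (hA.subgroup _) hn
  have hf : Finite (A ⧸ S.normalCore) := inferInstance
  exact ⟨_, R3_ext S.normalCore (fun K => sb_finite K) hh⟩

/-- subgroups of images -/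
theorem bg_of_le {G Q S : Type*} [Group G] [Group Q] [Group S] {h : ℕ} (A : Subgroup G)
    (hA : ∀ K : Subgroup A, BG K h) (π : G →* Q) (ι : S →* Q) (hι : Function.Injective ι)
    (hS : ι.range ≤ A.map π) : BG S h := by
  let K : Subgroup A := ι.range.comap (π.comp A.subtype)
  let e : S ≃* ι.range := ι.ofInjective hι
  let g : K →* S := e.symm.toMonoidHom.comp
    { toFun := fun x => (⟨π (x : A), x.2⟩ : ι.range)
      map_one' := Subtype.ext (by simp)
      map_mul' := fun x y => Subtype.ext (by simp) }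
  refine R3_BG_surj g ?_ (hA K)
  intro s
  obtain ⟨a, ha, has⟩ := hS ⟨s, rfl⟩
  have haK : (⟨a, ha⟩ : A) ∈ K := ⟨s, has.symm⟩
  refine ⟨⟨⟨a, ha⟩, haK⟩, ?_⟩
  show e.symm ⟨π a, _⟩ = s
  rw [MulEquiv.symm_apply_eq]
  exact Subtype.ext has

theorem frk_of_le {G Q S : Type*} [Group G] [Group Q] [Group S] {r : ℕ} (A : Subgroup G)
    (hA : FRk A r) (π : G →* Q) (ι : S →* Q) (hι : Function.Injective ι)
    (hS : ι.range ≤ A.map π) : FRk S r := by
  have h1 : FRk (A.map π) r := hA.of_surjective (π.subgroupMap A) (π.subgroupMap_surjective A)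
  refine FRk.of_injective h1 ((Subgroup.inclusion hS).comp ι.rangeRestrict) ?_
  intro x y hxy
  apply hι
  have h2 := congrArg (fun z : A.map π => (z : Q)) hxy
  exact h2

/-- a Sylow subgroup of a factorised group is a product -/
theorem sylow_fact' {G : Type*} [Group G] [Finite G] (A B : Subgroup G)
    (hf : ∀ g : G, ∃ a ∈ A, ∃ b ∈ B, g = a * b) {p : ℕ} (hp : p.Prime) :
    ∃ (P : Sylow p G) (PA PB : Subgroup G), IsPGroup p PA ∧ PA ≤ A ∧ PB ≤ B ∧
      ∀ x ∈ (P : Subgroup G), ∃ a ∈ PA, ∃ b ∈ PB, x = a * b := by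
  have : _root_.Fact p.Prime := ⟨hp⟩
  obtain ⟨SA, hSA, hSAp, hSAc⟩ := TF.exists_syl hp A
  obtain ⟨SB, hSB, hSBp, hSBc⟩ := TF.exists_syl hp B
  obtain ⟨P1, hP1⟩ := hSAp.exists_le_sylow
  obtain ⟨P2, hP2⟩ := hSBp.exists_le_sylow
  obtain ⟨g, hg⟩ := MulAction.exists_smul_eq G P1 P2
  obtain ⟨a, ha, b, hb, hab⟩ := hf g⁻¹
  have hg' : g = b⁻¹ * a⁻¹ := by rw [← mul_inv_rev, ← hab, inv_inv]
  set P : Sylow p G := a⁻¹ • P1 with hP
  have hPb : P = b • P2 := by
    rw [hP, ← hg, hg', mul_smul, smul_inv_smul]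
  have hconjA : MulAut.conj a⁻¹ • A = A := conj_smul_eq_self_of_mem (inv_mem ha)
  have hconjB : MulAut.conj b • B = B := conj_smul_eq_self_of_mem hb
  have hcc : ∀ (x : G) (S : Subgroup G), Nat.card (MulAut.conj x • S : Subgroup G) = Nat.card S := by
    intro x S
    exact (Nat.card_congr (equivSMul (MulAut.conj x) S).toEquiv).symm
  have h1 : MulAut.conj a⁻¹ • SA ≤ (P : Subgroup G) := by
    rw [hP, Sylow.coe_subgroup_smul]
    exact pointwise_smul_le_pointwise_smul_iff.2 hP1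
  have h2 : MulAut.conj b • SB ≤ (P : Subgroup G) := by
    rw [hPb, Sylow.coe_subgroup_smul]
    exact pointwise_smul_le_pointwise_smul_iff.2 hP2
  have h3 : MulAut.conj a⁻¹ • SA ≤ A := by
    rw [← hconjA]
    exact pointwise_smul_le_pointwise_smul_iff.2 hSA
  have h4 : MulAut.conj b • SB ≤ B := by
    conv_rhs => rw [← hconjB]
    exact pointwise_smul_le_pointwise_smul_iff.2 hSB
  refine ⟨P, MulAut.conj a⁻¹ • SA, MulAut.conj b • SB, P.isPGroup'.to_le h1, h3, h4, ?_⟩
  intro x hx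
  exact TF.fact_count A B _ _ (P : Subgroup G) hf hp h1 h2 h3 h4 P.isPGroup'
    (by rw [hcc, hSAc]) (by rw [hcc, hSBc]) P.card_eq_multiplicity x hx

/-- a normal `p`-subgroup inside `A B` is inside `P B` for a `p`-subgroup `P` of `A` -/
theorem normal_p_fact {Q : Type*} [Group Q] [Finite Q] (A B V : Subgroup Q) [hVn : V.Normal]
    {p : ℕ} (hp : p.Prime) (hV : IsPGroup p V) (hcov : ∀ v ∈ V, ∃ x ∈ A, ∃ y ∈ B, v = x * y) :
    ∃ P ≤ A, IsPGroup p P ∧ ∀ v ∈ V, ∃ x ∈ P, ∃ y ∈ B, v = x * y := by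
  have : _root_.Fact p.Prime := ⟨hp⟩
  set G : Subgroup Q := V ⊔ B with hG
  have hfac : ∀ g : G, ∃ a ∈ (A ⊓ G).subgroupOf G, ∃ b ∈ B.subgroupOf G, g = a * b := by
    rintro ⟨g, hg⟩
    obtain ⟨v, hv, b, hb, rfl⟩ := mem_sup_of_normal_left.1 hg
    obtain ⟨x, hx, y, hy, hxy⟩ := hcov v hv
    have hxG : x ∈ G := by
      have h1 : x = v * y⁻¹ := by rw [hxy, mul_inv_cancel_right]
      rw [h1]
      exact mul_mem (mem_sup_left hv) (mem_sup_right (inv_mem hy))
    refine ⟨⟨x, hxG⟩, mem_subgroupOf.2 (mem_inf.2 ⟨hx, hxG⟩), ⟨y * b, mem_sup_right (mul_mem hy hb)⟩,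
      mem_subgroupOf.2 (mul_mem hy hb), ?_⟩
    refine Subtype.ext ?_
    show v * b = x * (y * b)
    rw [hxy, mul_assoc]
  obtain ⟨P, PA, PB, hPA, hPAA, hPBB, hPf⟩ := sylow_fact' _ _ hfac hp
  have hVG : (V.subgroupOf G).Normal := Normal.subgroupOf hVn G
  have hVp : IsPGroup p (V.subgroupOf G) := by
    have h1 : V ≤ G := le_sup_left
    exact hV.of_equiv (subgroupOfEquivOfLe h1).symm
  have hVP : V.subgroupOf G ≤ P := by
    obtain ⟨P1, hP1⟩ := hVp.exists_le_sylow
    obtain ⟨g, hg⟩ := MulAction.exists_smul_eq G P1 P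
    rw [← hg, Sylow.coe_subgroup_smul]
    have h2 : MulAut.conj g • (V.subgroupOf G) = V.subgroupOf G := hVG.conj_smul_eq_self g
    conv_lhs => rw [← h2]
    exact pointwise_smul_le_pointwise_smul_iff.2 hP1
  refine ⟨PA.map G.subtype, ?_, hPA.map _, ?_⟩
  · rintro _ ⟨z, hz, rfl⟩
    exact (mem_inf.1 (mem_subgroupOf.1 (hPAA hz))).1
  · intro v hv
    have hvG : v ∈ G := mem_sup_left hv
    obtain ⟨a, ha, b, hb, hab⟩ := hPf ⟨v, hvG⟩ (hVP (mem_subgroupOf.2 hv))
    refine ⟨a, mem_map_of_mem _ ha, b, mem_subgroupOf.1 (hPBB hb), ?_⟩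
    exact congrArg Subtype.val hab

/-- finite normal elementary abelian sections of `X` inside `U` have rank at most `R` -/
def SecU (X : Type*) [Group X] (U : Subgroup X) (R : ℕ) : Prop :=
  ∀ p : ℕ, p.Prime → ∀ L M : Subgroup X, L.Normal → M.Normal → L ≤ M → M ≤ U →
    L.relIndex M ≠ 0 → (∀ x ∈ M, ∀ y ∈ M, ⁅x, y⁆ ∈ L) → (∀ x ∈ M, x ^ p ∈ L) →
      L.relIndex M ≤ p ^ R

/-- a normal subgroup of finite index separating a finite section -/
theorem exists_sep {X : Type*} [Group X] (L M : Subgroup X) [L.Normal] (hLM : L ≤ M)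
    (hfin : L.relIndex M ≠ 0) (hrf : RF (X ⧸ L)) :
    ∃ J : Subgroup X, J.Normal ∧ J.FiniteIndex ∧ L ≤ J ∧ J ⊓ M = L := by
  classical
  let π := QuotientGroup.mk' L
  have hcard : Nat.card (M.map π) = L.relIndex M := by
    rw [← relIndex_ker, QuotientGroup.ker_mk']
  have hT : Finite (M.map π) := Nat.finite_of_card_ne_zero (by rw [hcard]; exact hfin)
  have h1 : ∀ c : M.map π, ∃ N : Subgroup (X ⧸ L), N.Normal ∧ N.FiniteIndex ∧
      ((c : X ⧸ L) ∈ N → (c : X ⧸ L) = 1) := by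
    intro c
    by_cases hc : (c : X ⧸ L) = 1
    · exact ⟨⊤, inferInstance, inferInstance, fun _ => hc⟩
    · obtain ⟨N, hN, hNf, hcN⟩ := hrf c hc
      exact ⟨N, hN, hNf, fun h => absurd h hcN⟩
  choose N hN hNf hNc using h1
  have h2 : (⨅ c : M.map π, N c).Normal := normal_iInf_normal hN
  have h3 : (⨅ c : M.map π, N c).FiniteIndex := finiteIndex_iInf hNf
  have hLJ : L ≤ (⨅ c : M.map π, N c).comap π := by
    intro x hx
    rw [mem_comap]
    have : π x = 1 := (QuotientGroup.eq_one_iff x).2 hx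
    rw [this]
    exact one_mem _
  refine ⟨(⨅ c : M.map π, N c).comap π, inferInstance, ?_, hLJ, ?_⟩
  · exact ⟨by
      rw [index_comap_of_surjective _ (QuotientGroup.mk'_surjective L)]
      exact h3.index_ne_zero⟩
  · refine le_antisymm ?_ (le_inf hLJ hLM)
    intro x hx
    obtain ⟨hxJ, hxM⟩ := mem_inf.1 hx
    have h4 := mem_iInf.1 (mem_comap.1 hxJ) ⟨π x, mem_map_of_mem _ hxM⟩
    exact (QuotientGroup.eq_one_iff x).1 (hNc ⟨π x, mem_map_of_mem _ hxM⟩ h4)

theorem secU_of_cov {X : Type u} [Group X] (A B U : Subgroup X) (hA : AP A) (hB : AP B)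
    (hrf : ∀ (L : Subgroup X) [L.Normal], RF (X ⧸ L)) (hcov : Cov U A B) : ∃ R, SecU X U R := by
  obtain ⟨h, hh⟩ := bg_ap hA
  have hbg : ∀ K : Subgroup A, BG K h := fun K => R3_SB_BG K (hh K)
  obtain ⟨r, hr⟩ := hB.frk
  obtain ⟨M₀, hM₀⟩ := r1_num h
  refine ⟨M₀ + r, ?_⟩
  intro p hp L M hL hM hLM hMU hfin hc he
  have hpf : _root_.Fact p.Prime := ⟨hp⟩
  obtain ⟨J, hJ, hJf, hLJ, hJM⟩ := exists_sep L M hLM hfin (hrf L)
  let π := QuotientGroup.mk' J
  have hsurj : Function.Surjective π := QuotientGroup.mk'_surjective J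
  have hfq : Finite (X ⧸ J) := inferInstance
  let V : Subgroup (X ⧸ J) := M.map π
  have hV : V.Normal := hM.map π hsurj
  have hcard : Nat.card V = L.relIndex M := by
    have h1 : Nat.card V = J.relIndex M := by
      rw [← relIndex_ker, QuotientGroup.ker_mk']
    rw [h1, ← inf_relIndex_right, hJM]
  have hVc : ∀ x ∈ V, ∀ y ∈ V, x * y = y * x := by
    rintro _ ⟨x, hx, rfl⟩ _ ⟨y, hy, rfl⟩
    rw [← commutatorElement_eq_one_iff_mul_comm, ← map_commutatorElement, ← MonoidHom.mem_ker,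
      QuotientGroup.ker_mk']
    exact hLJ (hc x hx y hy)
  have hVe : ∀ x ∈ V, x ^ p = 1 := by
    rintro _ ⟨x, hx, rfl⟩
    rw [← map_pow, ← MonoidHom.mem_ker, QuotientGroup.ker_mk']
    exact hLJ (he x hx)
  have hVp : IsPGroup p V := fun x => ⟨1, Subtype.ext (by rw [pow_one]; exact hVe x x.2)⟩
  have hVcov : ∀ v ∈ V, ∃ x ∈ A.map π, ∃ y ∈ B.map π, v = x * y := by
    rintro _ ⟨u, hu, rfl⟩
    obtain ⟨x, hx, y, hy, j, hj, huj⟩ := hcov J hJ hJf u (hMU hu)
    refine ⟨π x, mem_map_of_mem _ hx, π y, mem_map_of_mem _ hy, ?_⟩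
    rw [huj, map_mul, map_mul]
    have : π j = 1 := (QuotientGroup.eq_one_iff j).2 hj
    rw [this, mul_one]
  obtain ⟨P, hPA, hP, hPcov⟩ := normal_p_fact (A.map π) (B.map π) V hp hVp hVcov
  -- the group `Y = P V`
  let Y : Subgroup (X ⧸ J) := P ⊔ V
  have hPY : P ≤ Y := le_sup_left
  have hVY : V ≤ Y := le_sup_right
  have hfact : H36.PP.Fact (P.subgroupOf Y) ((B.map π).subgroupOf Y) := by
    rintro ⟨y, hy⟩
    obtain ⟨x, hx, v, hv, rfl⟩ := mem_sup_of_normal_right.1 hy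
    obtain ⟨x', hx', b, hb, hxb⟩ := hPcov v hv
    have hbY : b ∈ Y := by
      have h1 : b = x'⁻¹ * v := by rw [hxb, inv_mul_cancel_left]
      rw [h1]
      exact mul_mem (hPY (inv_mem hx')) (hVY hv)
    refine ⟨⟨x * x', hPY (mul_mem hx hx')⟩, mem_subgroupOf.2 (mul_mem hx hx'), ⟨b, hbY⟩,
      mem_subgroupOf.2 hb, Subtype.ext ?_⟩
    show x * v = x * x' * b
    rw [hxb, mul_assoc]
  have hPY' : IsPGroup p (P.subgroupOf Y) := hP.of_equiv (subgroupOfEquivOfLe hPY).symm
  have hnil : Group.IsNilpotent (P.subgroupOf Y) := hPY'.isNilpotent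
  have hVn' : (V.subgroupOf Y).Normal := Normal.subgroupOf hV Y
  have hbound := r2_bound (P.subgroupOf Y) ((B.map π).subgroupOf Y) hfact hnil (h := h) ?_ (r := r)
    ?_ hM₀ hp (V.subgroupOf Y) inferInstance ?_ ?_
  · have h1 : Nat.card (V.subgroupOf Y) = Nat.card V :=
      Nat.card_congr (subgroupOfEquivOfLe hVY).toEquiv
    rw [← hcard, ← h1]
    exact hbound
  · intro A'
    refine bg_of_le A hbg π ((Y.subtype.comp (P.subgroupOf Y).subtype).comp A'.subtype) ?_ ?_
    · intro x y hxy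
      exact Subtype.ext (Subtype.ext (Subtype.ext hxy))
    · rintro _ ⟨x, rfl⟩
      exact hPA (mem_subgroupOf.1 (x : P.subgroupOf Y).2)
  · refine frk_of_le B hr π (Y.subtype.comp ((B.map π).subgroupOf Y).subtype) ?_ ?_
    · intro x y hxy
      exact Subtype.ext (Subtype.ext hxy)
    · rintro _ ⟨x, rfl⟩
      exact mem_subgroupOf.1 x.2
  · intro x hx y hy
    exact Subtype.ext (hVc x (mem_subgroupOf.1 hx) y (mem_subgroupOf.1 hy))
  · intro x hx
    exact Subtype.ext (hVe x (mem_subgroupOf.1 hx))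

end H12.TG
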