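import Mathlib

/-!
# A group covered by finitely many double cosets: one of them is large in the profinite topology

`x3_cover`: `X` a union of double cosets `A f B`, `f ∈ F`, `F` finite. For some `f ∈ F` there is a
normal subgroup `U` of finite index with `U ≤ A B^f J` for all normal `J` of finite index.
Proof. Otherwise for every `f ∈ F` and every coset `x U` there is a smaller coset `x' U' ≤ x U` which
is disjoint from `A f B`; doing this for all `f ∈ F` gives a coset disjoint from everything.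
-/

set_option autoImplicit false

namespace H12.TG

open Subgroup

variable {X : Type*} [Group X]

/-- `U ≤ A B J` for all normal subgroups `J` of finite index -/
def Cov (U A B : Subgroup X) : Prop :=
  ∀ J : Subgroup X, J.Normal → J.FiniteIndex → ∀ u ∈ U, ∃ x ∈ A, ∃ y ∈ B, ∃ j ∈ J, u = x * y * j

theorem Cov.mono {U V A B : Subgroup X} (h : Cov U A B) (hV : V ≤ U) : Cov V A B :=
  fun J hJ hJf u hu => h J hJ hJf u (hV hu)

/-- the conjugate `f B f⁻¹` -/
def cj (f : X) (B : Subgroup X) : Subgroup X := B.map (MulAut.conj f).toMonoidHom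

theorem mem_cj {f : X} {B : Subgroup X} {y : X} : y ∈ cj f B ↔ ∃ b ∈ B, f * b * f⁻¹ = y := Iff.rfl

/-- a coset which is disjoint from `A f B` -/
theorem x3_step {A B : Subgroup X} {f : X}
    (hno : ∀ U : Subgroup X, U.Normal → U.FiniteIndex → ¬ Cov U A (cj f B))
    (x : X) (U : Subgroup X) (hU : U.Normal) (hUf : U.FiniteIndex) :
    ∃ (x' : X) (U' : Subgroup X), U'.Normal ∧ U'.FiniteIndex ∧ U' ≤ U ∧ x⁻¹ * x' ∈ U ∧
      ∀ a ∈ A, ∀ b ∈ B, x'⁻¹ * (a * f * b) ∉ U' := by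
  by_contra hcon
  push Not at hcon
  apply hno U hU hUf
  obtain ⟨a, ha, b, hb, hab⟩ := hcon x U hU hUf le_rfl (by rw [inv_mul_cancel]; exact one_mem U)
  intro J hJ hJf u hu
  have hfu : b⁻¹ * (f⁻¹ * u * f) * b ∈ U := by
    have h1 := hU.conj_mem u hu (b⁻¹ * f⁻¹)
    have h2 : b⁻¹ * f⁻¹ * u * (b⁻¹ * f⁻¹)⁻¹ = b⁻¹ * (f⁻¹ * u * f) * b := by group
    rwa [h2] at h1
  have hUJ : (U ⊓ J).Normal := inferInstance
  have hUJf : (U ⊓ J).FiniteIndex := inferInstance
  obtain ⟨c, hc, d, hd, hcd⟩ := hcon (a * f * b * (b⁻¹ * (f⁻¹ * u * f) * b)) (U ⊓ J) hUJ hUJf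
    inf_le_left (by
      rw [← mul_assoc x⁻¹]
      exact mul_mem hab hfu)
  have hj := (mem_inf.1 hcd).2
  set j := (a * f * b * (b⁻¹ * (f⁻¹ * u * f) * b))⁻¹ * (c * f * d) with hjd
  refine ⟨a⁻¹ * c, mul_mem (inv_mem ha) hc, f * (d * b⁻¹) * f⁻¹,
    mem_cj.2 ⟨d * b⁻¹, mul_mem hd (inv_mem hb), rfl⟩, (f * b) * j⁻¹ * (f * b)⁻¹,
    hJ.conj_mem _ (inv_mem hj) _, ?_⟩
  rw [hjd]
  group

theorem x3_iter {A B : Subgroup X} (F : Finset X)
    (hno : ∀ f ∈ F, ∀ U : Subgroup X, U.Normal → U.FiniteIndex → ¬ Cov U A (cj f B)) :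
    ∃ (x : X) (U : Subgroup X), U.Normal ∧ U.FiniteIndex ∧
      ∀ f ∈ F, ∀ a ∈ A, ∀ b ∈ B, x⁻¹ * (a * f * b) ∉ U := by
  classical
  induction F using Finset.induction_on with
  | empty => exact ⟨1, ⊤, inferInstance, inferInstance, fun f hf => absurd hf (Finset.notMem_empty f)⟩
  | insert f F _ ih =>
    obtain ⟨x, U, hU, hUf, hx⟩ := ih fun g hg => hno g (Finset.mem_insert_of_mem hg)
    obtain ⟨x', U', hU', hUf', hle, hxx, hd⟩ :=
      x3_step (hno f (Finset.mem_insert_self f F)) x U hU hUf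
    refine ⟨x', U', hU', hUf', ?_⟩
    intro g hg a ha b hb hmem
    rcases Finset.mem_insert.1 hg with rfl | hg
    · exact hd a ha b hb hmem
    · apply hx g hg a ha b hb
      have h1 := mul_mem hxx (hle hmem)
      rw [← mul_assoc, mul_assoc x⁻¹, mul_inv_cancel, mul_one] at h1
      exact h1

theorem x3_cover {A B : Subgroup X} (F : Finset X)
    (hF : ∀ g : X, ∃ a ∈ A, ∃ f ∈ F, ∃ b ∈ B, g = a * f * b) :
    ∃ f ∈ F, ∃ U : Subgroup X, U.Normal ∧ U.FiniteIndex ∧ Cov U A (cj f B) := by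
  by_contra hcon
  push Not at hcon
  obtain ⟨x, U, hU, hUf, hx⟩ := x3_iter F hcon
  obtain ⟨a, ha, f, hf, b, hb, hab⟩ := hF x
  apply hx f hf a ha b hb
  rw [← hab, inv_mul_cancel]
  exact one_mem U

end H12.TG
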