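import Pool.Agent.H12.TG.Rank
import Pool.Agent.H36.PQ.N1
import Pool.Agent.H36.PQ.A3

/-!
# Relative forms of the lemmas on elementary abelian sections

`nil_rel`: `Q` finite, `V` a soluble normal subgroup, `D ≤ V` centralises all elementary abelian
sections `M/L`, `L ≤ M ≤ V`, `L`, `M` normal in `Q`. Then `D` is nilpotent.
`rep_rel`: `a3_rep` for `P ≤ U` under `SecU X U R`.
-/

set_option autoImplicit false

universe u

namespace H12.TG

open Subgroup H36.PP H36.PQ
open scoped commutatorElement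

theorem secU_quotient {X : Type u} [Group X] {U : Subgroup X} {R : ℕ} (h : SecU X U R)
    (N : Subgroup X) [N.Normal] (hN : N ≤ U) : SecU (X ⧸ N) (U.map (QuotientGroup.mk' N)) R := by
  intro p hp L M hL hM hLM hMU hfin hc he
  have hsurj : Function.Surjective (QuotientGroup.mk' N) := QuotientGroup.mk'_surjective N
  have hrel : (L.comap (QuotientGroup.mk' N)).relIndex (M.comap (QuotientGroup.mk' N)) =
      L.relIndex M := by
    rw [relIndex_comap, map_comap_eq_self_of_surjective hsurj]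
  rw [← hrel]
  refine h p hp _ _ (hL.comap _) (hM.comap _) (comap_mono hLM) ?_ (by rw [hrel]; exact hfin) ?_ ?_
  · refine (comap_mono hMU).trans ?_
    rw [comap_map_eq, QuotientGroup.ker_mk']
    exact sup_le le_rfl hN
  · intro x hx y hy
    rw [mem_comap, map_commutatorElement]
    exact hc _ hx _ hy
  · intro x hx
    rw [mem_comap, map_pow]
    exact he _ hx

private theorem nil_aux (n : ℕ) : ∀ (Q : Type u) [Group Q] [Finite Q] (V D : Subgroup Q),
    Nat.card V = n → V.Normal → Group.IsSolvable V → D ≤ V →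
    (∀ p : ℕ, p.Prime → ∀ L M : Subgroup Q, L.Normal → M.Normal → L ≤ M → M ≤ V →
      (∀ x ∈ M, ∀ y ∈ M, ⁅x, y⁆ ∈ L) → (∀ x ∈ M, x ^ p ∈ L) → ∀ g ∈ D, ∀ x ∈ M, ⁅g, x⁆ ∈ L) →
    Group.IsNilpotent D := by
  induction n using Nat.strong_induction_on with
  | _ n ih =>
  intro Q _ _ V D hn hVn hs hDV hD
  by_cases htr : V = ⊥
  · have : Subsingleton V := by rw [htr]; infer_instance
    have : Subsingleton D := ⟨fun x y => Subtype.ext (congrArg (fun z : V => (z : Q))
      (Subsingleton.elim (⟨x, hDV x.2⟩ : V) ⟨y, hDV y.2⟩))⟩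
    exact Group.isNilpotent_of_subsingleton
  -- a nontrivial abelian normal subgroup
  have hA : ∃ A : Subgroup Q, A.Normal ∧ A ≤ V ∧ A ≠ ⊥ ∧ ∀ x ∈ A, ∀ y ∈ A, x * y = y * x := by
    classical
    have hex : ∃ k, DS V k = ⊥ := by
      obtain ⟨k, hk⟩ := (Group.isSolvable_def V).1 hs
      exact ⟨k, by rw [z1_DS, hk, Subgroup.map_bot]⟩
    have hk := Nat.find_spec hex
    have hk0 : Nat.find hex ≠ 0 := by
      intro h0
      rw [h0] at hk
      exact htr hk
    obtain ⟨k, hk1⟩ := Nat.exists_eq_succ_of_ne_zero hk0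
    have hlt : k < Nat.find hex := by omega
    refine ⟨DS V k, z1_DS_normal V k, z1_DS_anti V (Nat.zero_le k), Nat.find_min hex hlt, ?_⟩
    intro x hx y hy
    have h1 : ⁅x, y⁆ ∈ DS V (k + 1) := commutator_mem_commutator hx hy
    have h2 : DS V (k + 1) = ⊥ := by
      rw [← Nat.succ_eq_add_one, ← hk1]
      exact hk
    rw [h2, mem_bot, commutatorElement_eq_one_iff_mul_comm] at h1
    exact h1
  obtain ⟨A, hAn, hAV, hA1, hAc⟩ := hA
  -- a prime dividing the order
  have hcA : Nat.card A ≠ 1 := by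
    intro h
    exact hA1 (Subgroup.card_eq_one.1 h)
  obtain ⟨p, hp, hpd⟩ := Nat.exists_prime_and_dvd hcA
  have : _root_.Fact p.Prime := ⟨hp⟩
  let W : Subgroup Q :=
    { carrier := {x | x ∈ A ∧ x ^ p = 1}
      mul_mem' := by
        rintro a b ⟨ha, ha1⟩ ⟨hb, hb1⟩
        refine ⟨A.mul_mem ha hb, ?_⟩
        rw [(show Commute a b from hAc a ha b hb).mul_pow, ha1, hb1, one_mul]
      one_mem' := ⟨A.one_mem, one_pow _⟩
      inv_mem' := by
        rintro a ⟨ha, ha1⟩
        exact ⟨A.inv_mem ha, by rw [inv_pow, ha1, inv_one]⟩ }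
  have hWm : ∀ x, x ∈ W ↔ x ∈ A ∧ x ^ p = 1 := fun x => Iff.rfl
  have hWV : W ≤ V := fun x hx => hAV hx.1
  have hWn : W.Normal := by
    constructor
    intro x hx g
    rw [hWm] at hx ⊢
    refine ⟨hAn.conj_mem x hx.1 g, ?_⟩
    rw [conj_pow, hx.2]
    group
  have hW1 : W ≠ ⊥ := by
    obtain ⟨a, ha⟩ := exists_prime_orderOf_dvd_card' (G := A) p hpd
    intro hV
    have h1 : (a : Q) ∈ W := by
      rw [hWm]
      refine ⟨a.2, ?_⟩
      have := pow_orderOf_eq_one a
      rw [ha] at this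
      exact_mod_cast congrArg Subtype.val this
    rw [hV, mem_bot] at h1
    have h2 : a = 1 := Subtype.ext h1
    rw [h2, orderOf_one] at ha
    exact hp.one_lt.ne ha
  have hWD : ∀ g ∈ D, ∀ x ∈ W, ⁅g, x⁆ ∈ (⊥ : Subgroup Q) := by
    apply hD p hp ⊥ W inferInstance hWn bot_le hWV
    · intro x hx y hy
      rw [mem_bot, commutatorElement_eq_one_iff_mul_comm]
      exact hAc x hx.1 y hy.1
    · intro x hx
      rw [mem_bot]
      exact hx.2
  -- the quotient
  let π := QuotientGroup.mk' W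
  have hsurj : Function.Surjective π := QuotientGroup.mk'_surjective W
  have hlt : Nat.card (V.map π) < n := by
    have h1 : Nat.card (V.map π) = W.relIndex V := by
      rw [← relIndex_ker, QuotientGroup.ker_mk']
    have h2 : 1 < Nat.card W := by
      have h3 : Nat.card W ≠ 1 := fun h => hW1 (Subgroup.card_eq_one.1 h)
      have h4 : 0 < Nat.card W := Nat.card_pos
      omega
    have h3 : Nat.card W * W.relIndex V = n := by
      have h6 := relIndex_mul_relIndex (⊥ : Subgroup Q) W V bot_le hWV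
      rw [relIndex_bot_left, relIndex_bot_left] at h6
      rw [h6, hn]
    have h5 : 0 < Nat.card (V.map π) := Nat.card_pos
    rw [h1] at h5 ⊢
    nlinarith
  have hsQ : Group.IsSolvable (V.map π) :=
    Group.isSolvable_of_surjective (π.subgroupMap_surjective V)
  have hq := ih _ hlt (Q ⧸ W) (V.map π) (D.map π) rfl (hVn.map π hsurj) hsQ (map_mono hDV) (by
    intro q hq L M hL hM hLM hMV hc he g hg x hx
    obtain ⟨g, hg, rfl⟩ := hg
    obtain ⟨x, rfl⟩ := hsurj x
    have := hD q hq (L.comap π) (M.comap π)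
      (hL.comap _) (hM.comap _) (comap_mono hLM) ((comap_mono hMV).trans (by
        rw [comap_map_eq, QuotientGroup.ker_mk']
        exact sup_le le_rfl hWV)) (by
        intro x hx y hy
        rw [mem_comap, map_commutatorElement]
        exact hc _ hx _ hy) (by
        intro x hx
        rw [mem_comap, map_pow]
        exact he _ hx) g hg x hx
    rw [mem_comap, map_commutatorElement] at this
    exact this)
  -- the extension
  refine @Subgroup.isNilpotent_of_ker_le_center D _ _ _ (π.subgroupMap D) ?_ hq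
  intro d hd
  rw [MonoidHom.mem_ker] at hd
  have h1 : ((d : D) : Q) ∈ W := by
    have := congrArg Subtype.val hd
    change π (d : Q) = 1 at this
    exact (QuotientGroup.eq_one_iff _).1 this
  rw [mem_center_iff]
  intro g
  apply Subtype.ext
  have := hWD g g.2 d h1
  rw [mem_bot, commutatorElement_eq_one_iff_mul_comm] at this
  exact this

theorem nil_rel {Q : Type u} [Group Q] [Finite Q] (V D : Subgroup Q) (hV : V.Normal)
    (hs : Group.IsSolvable V) (hDV : D ≤ V)
    (hD : ∀ p : ℕ, p.Prime → ∀ L M : Subgroup Q, L.Normal → M.Normal → L ≤ M → M ≤ V →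
      (∀ x ∈ M, ∀ y ∈ M, ⁅x, y⁆ ∈ L) → (∀ x ∈ M, x ^ p ∈ L) →
        ∀ g ∈ D, ∀ x ∈ M, ⁅g, x⁆ ∈ L) : Group.IsNilpotent D :=
  nil_aux (Nat.card V) Q V D rfl hV hs hDV hD

/-- the image of `DS N t` in a finite quotient is nilpotent -/
theorem fin_nil_rel {X : Type u} [Group X] {U X₁ N : Subgroup X} {R t : ℕ} (hz : Zas.{u} R t)
    (hX : SecU X U R) (hX₁ : X₁.Normal) (hX₁U : X₁ ≤ U) (hN : N ≤ X₁)
    (hsol : ∀ (J : Subgroup X) [J.Normal], J.FiniteIndex →
      Group.IsSolvable (X₁.map (QuotientGroup.mk' J)))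
    (hX₁f : X₁.FiniteIndex) (J : Subgroup X) [J.Normal] (hJ : J.FiniteIndex) :
    Group.IsNilpotent ((DS N t).map (QuotientGroup.mk' J)) := by
  -- reduction to `J ≤ X₁`
  have key : ∀ (J : Subgroup X) [J.Normal], J.FiniteIndex → J ≤ X₁ →
      Group.IsNilpotent ((DS N t).map (QuotientGroup.mk' J)) := by
    intro J hJn hJ hJX
    let π := QuotientGroup.mk' J
    have hsurj : Function.Surjective π := QuotientGroup.mk'_surjective J
    have hfin : Finite (X ⧸ J) := inferInstance
    have hs := hsol J hJ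
    have hle : (DS N t).map π ≤ DS (X₁.map π) t := by
      rw [z1_DS_map]
      exact z1_DS_mono (map_mono hN) t
    refine nil_rel (X₁.map π) ((DS N t).map π) (hX₁.map π hsurj) hs
      (hle.trans (z1_DS_anti _ (Nat.zero_le t))) ?_
    intro p hp L M hL hM hLM hMV hc he g hg x hx
    have hrel : L.relIndex M ≠ 0 := by
      rw [relIndex]
      exact index_ne_zero_of_finite
    have hrc : (L.comap π).relIndex (M.comap π) = L.relIndex M := by
      rw [relIndex_comap, map_comap_eq_self_of_surjective hsurj]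
    refine sec_cent hz hp L M hLM hrel hc he ?_ (X₁.map π) hs g (hle hg) x hx
    rw [← hrc]
    refine hX p hp _ _ (hL.comap _) (hM.comap _) (comap_mono hLM) ?_ (by rw [hrc]; exact hrel) ?_ ?_
    · refine (comap_mono hMV).trans ?_
      rw [comap_map_eq, QuotientGroup.ker_mk']
      exact (sup_le le_rfl hJX).trans hX₁U
    · intro x hx y hy
      rw [mem_comap, map_commutatorElement]
      exact hc _ hx _ hy
    · intro x hx
      rw [mem_comap, map_pow]
      exact he _ hx
  have hJ' : (J ⊓ X₁).FiniteIndex := inferInstance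
  have h1 := key (J ⊓ X₁) hJ' inf_le_right
  let φ : X ⧸ (J ⊓ X₁) →* X ⧸ J := QuotientGroup.map _ _ (MonoidHom.id X) (fun x hx => hx.1)
  have h2 : ((DS N t).map (QuotientGroup.mk' (J ⊓ X₁))).map φ = (DS N t).map (QuotientGroup.mk' J) := by
    rw [Subgroup.map_map]
    rfl
  rw [← h2]
  exact Group.nilpotent_of_surjective _ (φ.subgroupMap_surjective _)

theorem rep_rel {X : Type u} [Group X] {U : Subgroup X} {R t : ℕ} (hX : SecU X U R)
    (hz : Zas.{u} R t) {p : ℕ} (hp : p.Prime) (P : Subgroup X) [P.Normal] (hPU : P ≤ U)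
    (hfin : Finite P) (hP : IsPGroup p P) {n : ℕ} (hn : t ≤ n) (hne : DS P (n + R + 2) ≠ ⊥) :
    ∃ s ≤ R, ∃ (d : ℕ) (φ : X →* GL (Fin s) (ZMod (p ^ d))), ∃ g ∈ DS P n, φ g ≠ 1 := by
  have : _root_.Fact p.Prime := ⟨hp⟩
  obtain ⟨C, D, hCn, hDn, hDC, hCP, hDab, hCD, hCp, hcent⟩ := crit hp P hfin hP
  have hfC : Finite C := Finite.of_injective (Subgroup.inclusion hCP) (Subgroup.inclusion_injective hCP)
  have hfD : Finite D := Finite.of_injective (Subgroup.inclusion hDC) (Subgroup.inclusion_injective hDC)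
  have hsolP : Group.IsSolvable P := by
    have := hP.isNilpotent
    infer_instance
  have hfinC : D.relIndex C ≠ 0 := by
    have : Finite (C ⧸ D.subgroupOf C) := inferInstance
    exact Subgroup.FiniteIndex.index_ne_zero
  have hb : D.relIndex C ≤ p ^ R := hX p hp D C hDn hCn hDC (hCP.trans hPU) hfinC hCD hCp
  have h2 : ∀ g ∈ DS P (n + R), ∀ x ∈ C, ⁅g, x⁆ ∈ D := fun g hg =>
    sec_cent hz hp D C hDC hfinC hCD hCp hb P hsolP g (z1_DS_anti P (by omega) hg)
  have hnotc : ¬ (∀ g ∈ DS P (n + R), ∀ x ∈ D, g * x = x * g) := fun h1 =>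
    hne (crit_ds P C D hDab hcent (n + R) h1 h2)
  have hPD : IsPGroup p D := hP.of_injective (Subgroup.inclusion (hDC.trans hCP))
    (Subgroup.inclusion_injective _)
  have hfP : (PowS D p).relIndex D ≠ 0 := Subgroup.FiniteIndex.index_ne_zero
  have hPow : (PowS D p).relIndex D ≤ p ^ R := by
    refine hX p hp (PowS D p) D (h2_PowS_normal D p) hDn (h2_PowS_le D p)
      ((hDC.trans hCP).trans hPU) hfP ?_ ?_
    · intro x hx y hy
      rw [commutatorElement_eq_one_iff_mul_comm.2 (hDab x hx y hy)]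
      exact one_mem _
    · intro x hx
      exact subset_closure ⟨x, hx, rfl⟩
  exact homo hp R D hDn hfD hDab hPD hPow P n hnotc

end H12.TG
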